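import Pool.Agent.Work.MP_ecaf63_an.Split

/-!
Hyperinvariant subspaces from sequences of block operators.
-/

open Finset Complex InnerProductSpace Filter Topology

universe u

namespace ApproxInv

variable {H : Type u} [NormedAddCommGroup H] [InnerProductSpace ℂ H] [CompleteSpace H]

lemma BlockDeparture.mono {D D' : ℝ} {B : H →L[ℂ] H} (h : BlockDeparture D B) (hD : D ≤ D') :
    BlockDeparture D' B := by
  obtain ⟨𝒱, h1, h2, h3⟩ := h
  refine ⟨𝒱, h1, h2, fun V hV => ⟨(h3 V hV).1, ?_⟩⟩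
  obtain ⟨hf, hi, hd⟩ := (h3 V hV).2
  exact ⟨hf, hi, hd.trans hD⟩

/-- sequence version. -/
theorem hyper_seq (A : H →L[ℂ] H) {z w : ℂ} (hz : z ∈ spectrum ℂ A) (hw : w ∈ spectrum ℂ A)
    (hzw : z ≠ w) (B : ℕ → H →L[ℂ] H) (D η : ℕ → ℝ) (hD : ∀ k, 0 ≤ D k) (hη : ∀ k, 0 < η k)
    (hηs : Summable η) (hB : ∀ k, BlockDeparture (D k) (B k))
    (hsum : ∀ K : ℝ, Summable fun k => (‖A - B k‖ + ‖A - B (k + 1)‖)
      * Real.exp (K * (1 + D k + D (k + 1)) / (η k) ^ 2)) :
    ∃ M : Submodule ℂ H, IsClosed (M : Set H) ∧ M ≠ ⊥ ∧ M ≠ ⊤ ∧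
      ∀ T : H →L[ℂ] H, T.comp A = A.comp T → ∀ x ∈ M, T x ∈ M := by
  set L : ℝ := ‖w - z‖ with hL
  have hLpos : 0 < L := norm_pos_iff.mpr (sub_ne_zero.mpr (Ne.symm hzw))
  set v : ℂ := starRingEnd ℂ (w - z) / (L : ℂ) with hv
  have hvn : ‖v‖ = 1 := by
    rw [hv, norm_div, RCLike.norm_conj, norm_real, Real.norm_of_nonneg hLpos.le]
    exact div_self hLpos.ne'
  have hvwz : (v * (w - z)).re = L := by
    have h1 : v * (w - z) = ((L : ℝ) : ℂ) := by
      rw [hv, div_mul_eq_mul_div, mul_comm (starRingEnd ℂ (w - z)), mul_conj, normSq_eq_norm_sq,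
        ← hL]
      have : (L : ℂ) ≠ 0 := by exact_mod_cast hLpos.ne'
      push_cast
      field_simp
    rw [h1, ofReal_re]
  set a : ℝ := (v * z).re with ha
  have haw : (v * w).re = a + L := by
    rw [ha, ← hvwz, ← add_re]
    congr 1
    ring
  set S : ℝ := ∑' k, η k with hS
  have hSpos : 0 < S := hηs.tsum_pos (fun k => (hη k).le) 0 (hη 0)
  have hpart : ∀ k, ∑ j ∈ range k, η j < S := by
    intro k
    have h1 : ∑ j ∈ range (k + 1), η j ≤ S := hηs.sum_le_tsum _ (fun j _ => (hη j).le)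
    rw [sum_range_succ] at h1
    linarith [hη k]
  have hηle : ∀ k, η k ≤ S := fun k => hηs.le_tsum k (fun j _ => (hη j).le)
  set κ : ℝ := L / (4 * S) with hκ
  have hκpos : 0 < κ := by positivity
  have hκS : κ * S = L / 4 := by
    rw [hκ]
    field_simp
  set A' : H →L[ℂ] H := v • A with hA'
  set C : ℕ → H →L[ℂ] H := fun k => v • B k with hC
  have hdelta : ∀ k, ‖A' - C k‖ = ‖A - B k‖ := by
    intro k
    simp only [hA', hC]
    rw [← smul_sub, norm_smul, hvn, one_mul]
  have hv0 : v ≠ 0 := by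
    intro h
    rw [h, norm_zero] at hvn
    exact zero_ne_one hvn
  have hspec : ∀ t : ℂ, t ∈ spectrum ℂ A → v * t ∈ spectrum ℂ A' := by
    intro t ht
    have := (spectrum.smul_mem_smul_iff (R := ℂ) (a := A) (s := t) (r := Units.mk0 v hv0)).mpr ht
    exact this
  -- the general summability
  have hsumgen : ∀ (b : ℕ → ℝ), (∀ k, b (k + 1) - b k = κ * η k) →
      Summable fun k => 2 / (b (k + 1) - b k)
        * Real.exp (8 * (D k + D (k + 1)) / (b (k + 1) - b k) ^ 2)
          * (‖A - B k‖ + ‖A - B (k + 1)‖) := by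
    intro b hb
    have h1 := (hsum (1 + 8 / κ ^ 2)).mul_left (2 / κ)
    refine Summable.of_nonneg_of_le ?_ ?_ h1
    · intro k
      rw [hb]
      have := hη k
      positivity
    · intro k
      rw [hb]
      have hk := hη k
      have hDk := hD k
      have hDk1 := hD (k + 1)
      have e1 : 1 / η k ≤ Real.exp (1 / (η k) ^ 2) := by
        have h2 := Real.add_one_le_exp (1 / (η k) ^ 2)
        have h3 : 1 / η k ≤ 1 / (η k) ^ 2 + 1 := by
          have h4 : 0 ≤ (1 / η k - 1) ^ 2 := sq_nonneg _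
          have h5 : (1 / η k) ^ 2 = 1 / (η k) ^ 2 := by rw [div_pow, one_pow]
          have h6 : 0 ≤ 1 / η k := by positivity
          nlinarith
        linarith
      have e2 : 8 * (D k + D (k + 1)) / (κ * η k) ^ 2 + 1 / (η k) ^ 2
          ≤ (1 + 8 / κ ^ 2) * (1 + D k + D (k + 1)) / (η k) ^ 2 := by
        have h3 : (1 + 8 / κ ^ 2) * (1 + D k + D (k + 1)) / (η k) ^ 2
            = 8 * (D k + D (k + 1)) / (κ * η k) ^ 2 + 1 / (η k) ^ 2
              + ((D k + D (k + 1)) / (η k) ^ 2 + 8 / κ ^ 2 / (η k) ^ 2) := by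
          field_simp
          ring
        rw [h3]
        have : 0 ≤ (D k + D (k + 1)) / (η k) ^ 2 + 8 / κ ^ 2 / (η k) ^ 2 := by positivity
        linarith
      calc 2 / (κ * η k) * Real.exp (8 * (D k + D (k + 1)) / (κ * η k) ^ 2)
              * (‖A - B k‖ + ‖A - B (k + 1)‖)
          = (2 / κ) * ((‖A - B k‖ + ‖A - B (k + 1)‖) * ((1 / η k)
              * Real.exp (8 * (D k + D (k + 1)) / (κ * η k) ^ 2))) := by
            field_simp
        _ ≤ (2 / κ) * ((‖A - B k‖ + ‖A - B (k + 1)‖) * (Real.exp (1 / (η k) ^ 2)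
              * Real.exp (8 * (D k + D (k + 1)) / (κ * η k) ^ 2))) := by
            gcongr
        _ = (2 / κ) * ((‖A - B k‖ + ‖A - B (k + 1)‖)
              * Real.exp (8 * (D k + D (k + 1)) / (κ * η k) ^ 2 + 1 / (η k) ^ 2)) := by
            rw [← Real.exp_add, add_comm (1 / (η k) ^ 2)]
        _ ≤ _ := by
            gcongr
  have hresgen : ∀ᶠ k in atTop, ‖A - B k‖ < (L / 4) / 2 * Real.exp (-(2 * D k / (L / 4) ^ 2)) := by
    have h1 := (hsum (32 * S ^ 2 / L ^ 2)).tendsto_atTop_zero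
    have h2 := h1.eventually_lt_const (show (0 : ℝ) < L / 8 by positivity)
    filter_upwards [h2] with k hk
    have hk' := hη k
    have hDk := hD k
    have hDk1 := hD (k + 1)
    rw [Real.exp_neg, ← div_eq_mul_inv, lt_div_iff₀ (Real.exp_pos _)]
    have e1 : 2 * D k / (L / 4) ^ 2 ≤ 32 * S ^ 2 / L ^ 2 * (1 + D k + D (k + 1)) / (η k) ^ 2 := by
      have h3 : 2 * D k / (L / 4) ^ 2 = 32 / L ^ 2 * D k := by
        field_simp
        ring
      have h4 : 32 * S ^ 2 / L ^ 2 * (1 + D k + D (k + 1)) / (η k) ^ 2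
          = 32 / L ^ 2 * (1 + D k + D (k + 1)) * (S ^ 2 / (η k) ^ 2) := by
        field_simp
      rw [h3, h4]
      have h5 : 1 ≤ S ^ 2 / (η k) ^ 2 := by
        rw [one_le_div (by positivity)]
        exact pow_le_pow_left₀ hk'.le (hηle k) 2
      calc 32 / L ^ 2 * D k ≤ 32 / L ^ 2 * (1 + D k + D (k + 1)) * 1 := by
            rw [mul_one]
            apply mul_le_mul_of_nonneg_left _ (by positivity)
            linarith
        _ ≤ _ := by gcongr
    calc ‖A - B k‖ * Real.exp (2 * D k / (L / 4) ^ 2)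
        ≤ (‖A - B k‖ + ‖A - B (k + 1)‖) * Real.exp (2 * D k / (L / 4) ^ 2) := by
          gcongr
          linarith [norm_nonneg (A - B (k + 1))]
      _ ≤ (‖A - B k‖ + ‖A - B (k + 1)‖)
          * Real.exp (32 * S ^ 2 / L ^ 2 * (1 + D k + D (k + 1)) / (η k) ^ 2) := by
          gcongr
      _ < L / 8 := hk
      _ = L / 4 / 2 := by ring
  -- the cuts
  set c : ℕ → ℝ := fun k => a + L / 4 + κ * ∑ j ∈ range k, η j with hc
  set b : ℕ → ℝ := fun k => -(a + 3 * L / 4) + κ * ∑ j ∈ range k, η j with hb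
  have hcs : ∀ k, c (k + 1) - c k = κ * η k := by
    intro k
    simp only [hc, sum_range_succ]
    ring
  have hbs : ∀ k, b (k + 1) - b k = κ * η k := by
    intro k
    simp only [hb, sum_range_succ]
    ring
  have hcb : ∀ k, c k + b k < 0 := by
    intro k
    have h1 : κ * ∑ j ∈ range k, η j < L / 4 := by
      rw [← hκS]
      exact mul_lt_mul_of_pos_left (hpart k) hκpos
    simp only [hc, hb]
    linarith
  choose N hN1 hN2 using fun k => (hB k).split hvn (c k)
  choose N' hN1' hN2' using fun k => (hB k).split hvn (-(b k))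
  have hcompl : ∀ k, CompleteSpace (N k) := fun k => (hN1 k).isClosed.completeSpace_coe
  have hcompl' : ∀ k, CompleteSpace (N' k) := fun k => (hN1' k).isClosed.completeSpace_coe
  obtain ⟨M, hM1, hM2, hM3, hM4⟩ := exists_M A' C c D N hN1 hN2 hD
    (fun k => by have := hcs k; have := mul_pos hκpos (hη k); linarith)
    (by
      simp only [hdelta]
      exact hsumgen c hcs)
    (hspec z hz) (by
      simp only [hc, sum_range_zero, mul_zero, add_zero]
      rw [← ha]
      linarith)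
    (by
      have e1 : c 0 - (v * z).re = L / 4 := by
        simp only [hc, sum_range_zero, mul_zero, add_zero]
        rw [← ha]
        ring
      rw [e1]
      simp only [hdelta]
      exact hresgen)
  set A2 : H →L[ℂ] H := -(ContinuousLinearMap.adjoint A') with hA2
  set C2 : ℕ → H →L[ℂ] H := fun k => -(ContinuousLinearMap.adjoint (C k)) with hC2
  have hC2adj : ∀ k, -(ContinuousLinearMap.adjoint (C2 k)) = C k := by
    intro k
    simp only [hC2]
    rw [map_neg, neg_neg, ContinuousLinearMap.adjoint_adjoint]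
  have hdelta2 : ∀ k, ‖A2 - C2 k‖ = ‖A - B k‖ := by
    intro k
    rw [← hdelta k]
    simp only [hA2, hC2]
    rw [← neg_sub', norm_neg, ← map_sub]
    exact LinearIsometryEquiv.norm_map _ _
  have hspec2 : -(starRingEnd ℂ (v * w)) ∈ spectrum ℂ A2 := by
    have h6 : star (v * w) ∈ spectrum ℂ (star A') := by
      rw [spectrum.map_star]
      simpa using hspec w hw
    have h7 := spectrum.neg_eq (R := ℂ) (star A')
    have h8 : -(star (v * w)) ∈ spectrum ℂ (-(star A')) := by
      rw [← h7]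
      simpa using h6
    exact h8
  obtain ⟨M2, hM21, hM22, hM23, hM24⟩ := exists_M A2 C2 b D (fun k => (N' k)ᗮ)
    (fun k => by
      have := hN2' k
      rw [neg_neg] at this
      exact this)
    (fun k => by
      rw [hC2adj, Submodule.orthogonal_orthogonal]
      exact hN1' k)
    hD
    (fun k => by have := hbs k; have := mul_pos hκpos (hη k); linarith)
    (by
      simp only [hdelta2]
      exact hsumgen b hbs)
    hspec2 (by
      simp only [hb, sum_range_zero, mul_zero, add_zero, neg_re, conj_re]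
      rw [haw]
      linarith)
    (by
      have e1 : b 0 - (-(starRingEnd ℂ (v * w))).re = L / 4 := by
        simp only [hb, sum_range_zero, mul_zero, add_zero, neg_re, conj_re]
        rw [haw]
        ring
      rw [e1]
      simp only [hdelta2]
      exact hresgen)
  refine ⟨M, hM1, hM2, ?_, ?_⟩
  · intro htop
    obtain ⟨y, hy, hy0⟩ := Submodule.exists_mem_ne_zero_of_ne_bot hM22
    have hyM : y ∈ M := by rw [htop]; trivial
    have h1 := hM4 y hyM
    have h2 := hM24 y hy
    have h3 : ∀ k, (inner ℂ (((N' k)ᗮ).starProjection y) ((N k).starProjection y) : ℂ) = 0 := by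
      intro k
      have h4 := (hN1 k).pair (hN2' k) (by rw [neg_neg]; exact hcb k) (ContinuousLinearMap.id ℂ H)
        (g := 0) le_rfl
        (by
          intro x
          rw [map_neg, ContinuousLinearMap.adjoint_adjoint]
          simp)
        (Submodule.starProjection_apply_mem (N k) y)
        (Submodule.starProjection_apply_mem ((N' k)ᗮ) y)
      rw [mul_zero, zero_mul, zero_mul] at h4
      exact norm_le_zero_iff.mp h4
    have h5 : Tendsto (fun k => (inner ℂ (((N' k)ᗮ).starProjection y) ((N k).starProjection y) : ℂ))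
        atTop (𝓝 (inner ℂ y y)) := h2.inner h1
    have h6 : (inner ℂ y y : ℂ) = 0 := by
      have h7 : Tendsto (fun k => (inner ℂ (((N' k)ᗮ).starProjection y)
          ((N k).starProjection y) : ℂ)) atTop (𝓝 0) := by
        simp only [h3]
        exact tendsto_const_nhds
      exact tendsto_nhds_unique h5 h7
    exact hy0 (inner_self_eq_zero.mp h6)
  · intro T hT x hx
    apply hM3 T _ x hx
    simp only [hA']
    rw [ContinuousLinearMap.comp_smul, ContinuousLinearMap.smul_comp, hT]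

/-- function version: the departure may grow slowly. -/
theorem hyper_fun (A : H →L[ℂ] H) {z w : ℂ} (hz : z ∈ spectrum ℂ A) (hw : w ∈ spectrum ℂ A)
    (hzw : z ≠ w) (K s ε₀ : ℝ) (hs : 2 < s) (hε₀ : 0 < ε₀)
    (h : ∀ ε : ℝ, 0 < ε → ε < ε₀ → ∃ B : H →L[ℂ] H, ‖A - B‖ ≤ ε ∧
      BlockDeparture (K * Real.log (1 / ε) / (Real.log (Real.log (1 / ε))) ^ s) B) :
    ∃ M : Submodule ℂ H, IsClosed (M : Set H) ∧ M ≠ ⊥ ∧ M ≠ ⊤ ∧
      ∀ T : H →L[ℂ] H, T.comp A = A.comp T → ∀ x ∈ M, T x ∈ M := by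
  have hl2 : 0 < Real.log 2 := Real.log_pos (by norm_num)
  -- starting index
  obtain ⟨k₀, hk₀⟩ : ∃ k₀ : ℕ, 1 ≤ k₀ ∧ Real.exp (-((2 : ℝ) ^ k₀)) < ε₀ := by
    have h1 : Tendsto (fun k : ℕ => Real.exp (-((2 : ℝ) ^ k))) atTop (𝓝 0) := by
      apply Real.tendsto_exp_neg_atTop_nhds_zero.comp
      exact tendsto_pow_atTop_atTop_of_one_lt (by norm_num)
    obtain ⟨k₀, h2⟩ := ((h1.eventually_lt_const hε₀).and (eventually_ge_atTop 1)).exists
    exact ⟨k₀, h2.2, h2.1⟩
  set ε : ℕ → ℝ := fun k => Real.exp (-((2 : ℝ) ^ (k + k₀))) with hε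
  have hεpos : ∀ k, 0 < ε k := fun k => Real.exp_pos _
  have hεlt : ∀ k, ε k < ε₀ := by
    intro k
    refine lt_of_le_of_lt ?_ hk₀.2
    apply Real.exp_le_exp.mpr
    rw [neg_le_neg_iff]
    exact pow_le_pow_right₀ (by norm_num) (by omega)
  choose B hB1 hB2 using fun k => h (ε k) (hεpos k) (hεlt k)
  have hlog : ∀ k, Real.log (1 / ε k) = (2 : ℝ) ^ (k + k₀) := by
    intro k
    simp only [hε]
    rw [one_div, ← Real.exp_neg, neg_neg, Real.log_exp]
  have hloglog : ∀ k, Real.log (Real.log (1 / ε k)) = ((k + k₀ : ℕ) : ℝ) * Real.log 2 := by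
    intro k
    rw [hlog, Real.log_pow]
  set D : ℕ → ℝ := fun k => |K| * (2 : ℝ) ^ (k + k₀) / (((k + k₀ : ℕ) : ℝ) * Real.log 2) ^ s with hD
  have hmpos : ∀ k, (1 : ℝ) ≤ ((k + k₀ : ℕ) : ℝ) := by
    intro k
    exact_mod_cast (by omega : 1 ≤ k + k₀)
  have hD0 : ∀ k, 0 ≤ D k := by
    intro k
    have h1 : 0 ≤ ((k + k₀ : ℕ) : ℝ) * Real.log 2 := by
      have := hmpos k
      positivity
    have h2 := Real.rpow_nonneg h1 s
    simp only [hD]
    positivity
  have hB : ∀ k, BlockDeparture (D k) (B k) := by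
    intro k
    apply (hB2 k).mono
    rw [hloglog, hlog]
    simp only [hD]
    have h1 : 0 ≤ ((k + k₀ : ℕ) : ℝ) * Real.log 2 := by
      have := hmpos k
      positivity
    have h2 := Real.rpow_nonneg h1 s
    apply div_le_div_of_nonneg_right _ h2
    exact mul_le_mul_of_nonneg_right (le_abs_self K) (by positivity)
  set r : ℝ := 1 / 2 + s / 4 with hr
  have hr1 : 1 < r := by
    rw [hr]
    linarith
  have h2r : 2 * r < s := by
    rw [hr]
    linarith
  set η : ℕ → ℝ := fun k => (((k + k₀ : ℕ) : ℝ) ^ r)⁻¹ with hη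
  have hηpos : ∀ k, 0 < η k := by
    intro k
    have := hmpos k
    simp only [hη]
    positivity
  have hηs : Summable η := by
    have h1 : Summable (fun n : ℕ => ((n : ℝ) ^ r)⁻¹) := Real.summable_nat_rpow_inv.mpr hr1
    exact (summable_nat_add_iff k₀).mpr h1
  apply hyper_seq A hz hw hzw B D η hD0 hηpos hηs hB
  intro K'
  -- growth
  have hcore : Tendsto (fun m : ℕ => |K'| * ((m : ℝ) ^ (2 * r) / (2 : ℝ) ^ m)
      + |K'| * (3 * |K| / (Real.log 2) ^ s) * (m : ℝ) ^ (2 * r - s)) atTop (𝓝 0) := by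
    have h1 : Tendsto (fun m : ℕ => (m : ℝ) ^ (2 * r) / (2 : ℝ) ^ m) atTop (𝓝 0) := by
      have h2 := (tendsto_rpow_mul_exp_neg_mul_atTop_nhds_zero (2 * r) (Real.log 2) hl2).comp
        tendsto_natCast_atTop_atTop
      refine h2.congr fun m => ?_
      simp only [Function.comp_apply]
      rw [div_eq_mul_inv]
      congr 1
      rw [← Real.rpow_natCast, ← Real.rpow_neg (by norm_num), Real.rpow_def_of_pos (by norm_num)]
      congr 1
      ring
    have h3 : Tendsto (fun m : ℕ => (m : ℝ) ^ (2 * r - s)) atTop (𝓝 0) := by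
      have h4 := (tendsto_rpow_neg_atTop (show 0 < s - 2 * r by linarith)).comp
        tendsto_natCast_atTop_atTop
      refine h4.congr fun m => ?_
      simp only [Function.comp_apply, neg_sub]
    have h5 := (h1.const_mul |K'|).add (h3.const_mul (|K'| * (3 * |K| / (Real.log 2) ^ s)))
    simpa using h5
  have hev : ∀ᶠ k : ℕ in atTop, K' * (1 + D k + D (k + 1)) / (η k) ^ 2 ≤ (2 : ℝ) ^ (k + k₀) / 2 := by
    have h1 := (tendsto_add_atTop_iff_nat k₀).mpr hcore
    have h2 := h1.eventually_lt_const (show (0 : ℝ) < 1 / 2 by norm_num)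
    filter_upwards [h2] with k hk
    have hm := hmpos k
    set m : ℝ := ((k + k₀ : ℕ) : ℝ) with hmdef
    have hm0 : 0 < m := by linarith
    have hls : 0 < (Real.log 2) ^ s := Real.rpow_pos_of_pos hl2 s
    have hDk : D k = |K| / (Real.log 2) ^ s * (2 : ℝ) ^ (k + k₀) * m ^ (-s) := by
      simp only [hD]
      rw [← hmdef, Real.mul_rpow hm0.le hl2.le, Real.rpow_neg hm0.le]
      have := (Real.rpow_pos_of_pos hm0 s).ne'
      field_simp
    have hDk1 : D (k + 1) ≤ 2 * (|K| / (Real.log 2) ^ s) * (2 : ℝ) ^ (k + k₀) * m ^ (-s) := by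
      simp only [hD]
      have hm1 : m ≤ ((k + 1 + k₀ : ℕ) : ℝ) := by
        rw [hmdef]
        exact_mod_cast (by omega : k + k₀ ≤ k + 1 + k₀)
      have hm1pos : 0 < ((k + 1 + k₀ : ℕ) : ℝ) := by linarith
      rw [Real.mul_rpow hm1pos.le hl2.le, Real.rpow_neg hm0.le]
      have h3 : m ^ s ≤ ((k + 1 + k₀ : ℕ) : ℝ) ^ s := Real.rpow_le_rpow hm0.le hm1 (by linarith)
      have h4 := Real.rpow_pos_of_pos hm0 s
      have h5 : (2 : ℝ) ^ (k + 1 + k₀) = 2 * 2 ^ (k + k₀) := by
        rw [show k + 1 + k₀ = (k + k₀) + 1 by ring, pow_succ]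
        ring
      rw [h5]
      have h6 : |K| * (2 * 2 ^ (k + k₀)) / (((k + 1 + k₀ : ℕ) : ℝ) ^ s * (Real.log 2) ^ s)
          ≤ |K| * (2 * 2 ^ (k + k₀)) / (m ^ s * (Real.log 2) ^ s) := by
        gcongr
      refine h6.trans (le_of_eq ?_)
      field_simp
    have hηsq : 1 / (η k) ^ 2 = m ^ (2 * r) := by
      simp only [hη]
      rw [← hmdef, inv_pow, one_div, inv_inv, ← Real.rpow_natCast, ← Real.rpow_mul hm0.le]
      congr 1
      push_cast
      ring
    have hsplit : m ^ (-s) * m ^ (2 * r) = m ^ (2 * r - s) := by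
      rw [← Real.rpow_add hm0]
      congr 1
      ring
    have hpow : (0 : ℝ) < 2 ^ (k + k₀) := by positivity
    have hmr : 0 ≤ m ^ (2 * r) := (Real.rpow_pos_of_pos hm0 _).le
    calc K' * (1 + D k + D (k + 1)) / (η k) ^ 2
        = K' * (1 + D k + D (k + 1)) * m ^ (2 * r) := by
          rw [← hηsq]
          ring
      _ ≤ |K'| * (1 + D k + D (k + 1)) * m ^ (2 * r) := by
          have h1 := hD0 k
          have h2 := hD0 (k + 1)
          apply mul_le_mul_of_nonneg_right _ hmr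
          exact mul_le_mul_of_nonneg_right (le_abs_self _) (by linarith)
      _ ≤ |K'| * (1 + |K| / (Real.log 2) ^ s * (2 : ℝ) ^ (k + k₀) * m ^ (-s)
            + 2 * (|K| / (Real.log 2) ^ s) * (2 : ℝ) ^ (k + k₀) * m ^ (-s)) * m ^ (2 * r) := by
          apply mul_le_mul_of_nonneg_right _ hmr
          apply mul_le_mul_of_nonneg_left _ (abs_nonneg _)
          rw [hDk]
          linarith
      _ = (2 : ℝ) ^ (k + k₀) * (|K'| * (m ^ (2 * r) / (2 : ℝ) ^ (k + k₀))
            + |K'| * (3 * |K| / (Real.log 2) ^ s) * m ^ (2 * r - s)) := by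
          rw [← hsplit]
          field_simp
          ring
      _ ≤ (2 : ℝ) ^ (k + k₀) * (1 / 2) := mul_le_mul_of_nonneg_left hk.le hpow.le
      _ = (2 : ℝ) ^ (k + k₀) / 2 := by ring
  -- comparison with a geometric series
  have hgeo : Summable (fun k : ℕ => 2 * Real.exp (-((k : ℝ) / 2))) := by
    have h1 : Summable (fun k : ℕ => (Real.exp (-(1 / 2 : ℝ))) ^ k) :=
      summable_geometric_of_lt_one (Real.exp_pos _).le (by
        rw [Real.exp_lt_one_iff]
        norm_num)
    refine (h1.mul_left 2).congr fun k => ?_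
    rw [← Real.exp_nat_mul]
    congr 2
    ring
  refine Summable.of_norm_bounded_eventually_nat hgeo ?_
  filter_upwards [hev] with k hk
  rw [Real.norm_of_nonneg (by positivity)]
  have h1 : ‖A - B k‖ + ‖A - B (k + 1)‖ ≤ 2 * Real.exp (-((2 : ℝ) ^ (k + k₀))) := by
    have h2 := hB1 k
    have h3 := hB1 (k + 1)
    have h4 : ε (k + 1) ≤ ε k := by
      simp only [hε]
      apply Real.exp_le_exp.mpr
      rw [neg_le_neg_iff]
      exact pow_le_pow_right₀ (by norm_num) (by omega)
    have h5 : ε k = Real.exp (-((2 : ℝ) ^ (k + k₀))) := rfl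
    linarith
  calc (‖A - B k‖ + ‖A - B (k + 1)‖) * Real.exp (K' * (1 + D k + D (k + 1)) / (η k) ^ 2)
      ≤ (2 * Real.exp (-((2 : ℝ) ^ (k + k₀)))) * Real.exp ((2 : ℝ) ^ (k + k₀) / 2) := by
        gcongr
    _ = 2 * Real.exp (-((2 : ℝ) ^ (k + k₀) / 2)) := by
        rw [mul_assoc, ← Real.exp_add]
        congr 2
        ring
    _ ≤ 2 * Real.exp (-((k : ℝ) / 2)) := by
        have h6 : (k : ℝ) ≤ (2 : ℝ) ^ (k + k₀) := by
          have h7 : (k + k₀ : ℕ) < 2 ^ (k + k₀) := Nat.lt_two_pow_self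
          have h8 : (k : ℝ) ≤ ((k + k₀ : ℕ) : ℝ) := by exact_mod_cast (by omega : k ≤ k + k₀)
          have h9 : ((k + k₀ : ℕ) : ℝ) ≤ (2 : ℝ) ^ (k + k₀) := by exact_mod_cast h7.le
          linarith
        gcongr

end ApproxInv
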