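import Pool.Agent.Work.MP_ecaf63_an.Sys

/-!
Moving cuts: from approximating operators with triangular systems to an invariant subspace.
-/

open Finset Complex InnerProductSpace Filter Topology

universe u

namespace ApproxInv

variable {H : Type u} [NormedAddCommGroup H] [InnerProductSpace ℂ H]

/-- `N` is the closed span of a triangular system for `C`. -/
def Left (C : H →L[ℂ] H) (c D : ℝ) (N : Submodule ℂ H) : Prop :=
  ∃ (ι : Type u) (n : ι → ℕ) (e : ι → ℕ → H), LeftSys C c D n e ∧
    (sysSpan n e).topologicalClosure = N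

lemma Left.isClosed {C : H →L[ℂ] H} {c D : ℝ} {N : Submodule ℂ H} (h : Left C c D N) :
    IsClosed (N : Set H) := by
  obtain ⟨ι, n, e, _, rfl⟩ := h
  exact Submodule.isClosed_topologicalClosure _

variable [CompleteSpace H]

lemma Left.pair {C₁ C₂ : H →L[ℂ] H} {c₁ c₂ D₁ D₂ : ℝ} {N₁ N₂ : Submodule ℂ H}
    (h₁ : Left C₁ c₁ D₁ N₁) (h₂ : Left C₂ c₂ D₂ N₂) (hc : c₁ + c₂ < 0) (T : H →L[ℂ] H) {g : ℝ}
    (hg0 : 0 ≤ g) (hg : ∀ x : H, ‖T (C₁ x) + ContinuousLinearMap.adjoint C₂ (T x)‖ ≤ g * ‖x‖)
    {x y : H} (hx : x ∈ N₁) (hy : y ∈ N₂) :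
    ‖(inner ℂ y (T x) : ℂ)‖
      ≤ 2 / (-(c₁ + c₂)) * Real.exp (8 * (D₁ + D₂) / (c₁ + c₂) ^ 2) * g * ‖x‖ * ‖y‖ := by
  obtain ⟨ι₁, n₁, e₁, s₁, rfl⟩ := h₁
  obtain ⟨ι₂, n₂, e₂, s₂, rfl⟩ := h₂
  set K := 2 / (-(c₁ + c₂)) * Real.exp (8 * (D₁ + D₂) / (c₁ + c₂) ^ 2) * g with hK
  have h1 : ∀ y ∈ sysSpan n₂ e₂, ∀ x ∈ (sysSpan n₁ e₁).topologicalClosure,
      ‖(inner ℂ y (T x) : ℂ)‖ ≤ K * ‖x‖ * ‖y‖ := by
    intro y hy x hx
    have hcl : IsClosed {x : H | ‖(inner ℂ y (T x) : ℂ)‖ ≤ K * ‖x‖ * ‖y‖} := by
      apply isClosed_le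
      · fun_prop
      · fun_prop
    have hsub : (sysSpan n₁ e₁ : Set H) ⊆ {x : H | ‖(inner ℂ y (T x) : ℂ)‖ ≤ K * ‖x‖ * ‖y‖} :=
      fun x hx => pair_bound s₁ s₂ hc T hg0 hg hx hy
    exact (closure_minimal hsub hcl) hx
  have h2 : IsClosed {y : H | ‖(inner ℂ y (T x) : ℂ)‖ ≤ K * ‖x‖ * ‖y‖} := by
    apply isClosed_le
    · fun_prop
    · fun_prop
  have h3 : (sysSpan n₂ e₂ : Set H) ⊆ {y : H | ‖(inner ℂ y (T x) : ℂ)‖ ≤ K * ‖x‖ * ‖y‖} :=
    fun y hy => h1 y hy x hx
  exact (closure_minimal h3 h2) hy

/-- a whole-space system gives points of the resolvent set of nearby operators. -/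
lemma Left.resolvent {C A : H →L[ℂ] H} {c D : ℝ} (h : Left C c D ⊤) {μ : ℂ} (hμ : c < μ.re)
    (hA : ‖A - C‖ < (μ.re - c) / 2 * Real.exp (-(2 * D / (μ.re - c) ^ 2))) :
    μ ∉ spectrum ℂ A := by
  obtain ⟨ι, n, e, s, hs⟩ := h
  set m : ℝ := (μ.re - c) / 2 * Real.exp (-(2 * D / (μ.re - c) ^ 2)) with hm
  have hmpos : 0 < m := by
    have : 0 < μ.re - c := by linarith
    positivity
  set X : H →L[ℂ] H := C - μ • ContinuousLinearMap.id ℂ H with hX
  have hXapp : ∀ x, X x = C x - μ • x := fun x => by simp [hX]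
  have hdense : ∀ x : H, x ∈ (sysSpan n e).topologicalClosure := by
    intro x
    rw [hs]
    trivial
  have hbelow : ∀ x : H, m * ‖x‖ ≤ ‖X x‖ := by
    intro x
    have hcl : IsClosed {x : H | m * ‖x‖ ≤ ‖X x‖} := by
      apply isClosed_le
      · fun_prop
      · fun_prop
    have hsub : (sysSpan n e : Set H) ⊆ {x : H | m * ‖x‖ ≤ ‖X x‖} := by
      intro x hx
      simp only [Set.mem_ofPred_eq, hXapp]
      exact lower_bound s hμ hx
    exact (closure_minimal hsub hcl) (hdense x)
  have hanti : AntilipschitzWith (Real.toNNReal (1 / m)) X := by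
    apply ContinuousLinearMap.antilipschitz_of_bound
    intro x
    rw [Real.coe_toNNReal _ (by positivity)]
    have := hbelow x
    rw [one_div, ← div_eq_inv_mul, le_div_iff₀ hmpos]
    linarith
  have hrange : Function.Surjective X := by
    have h1 : IsClosed (Set.range X) := hanti.isClosed_range X.uniformContinuous
    have h2 : (sysSpan n e : Set H) ⊆ Set.range X := by
      intro x hx
      obtain ⟨y, hy⟩ := span_le_range s hμ hx
      exact ⟨y, hy⟩
    intro x
    exact (closure_minimal h2 h1) (hdense x)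
  have hinj : Function.Injective X := hanti.injective
  obtain ⟨U, hU⟩ := ContinuousLinearMap.isUnit_iff_bijective.mpr ⟨hinj, hrange⟩
  have hUinv : ‖(↑U⁻¹ : H →L[ℂ] H)‖ ≤ 1 / m := by
    apply ContinuousLinearMap.opNorm_le_bound _ (by positivity)
    intro y
    have h1 := hbelow ((↑U⁻¹ : H →L[ℂ] H) y)
    have h2 : X ((↑U⁻¹ : H →L[ℂ] H) y) = y := by
      rw [← hU]
      have : ((U : H →L[ℂ] H) * (↑U⁻¹ : H →L[ℂ] H)) y = y := by
        rw [U.mul_inv]
        rfl
      exact this
    rw [h2] at h1
    rw [one_div, ← div_eq_inv_mul, le_div_iff₀ hmpos]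
    linarith
  -- A - μ
  have hunit : IsUnit (A - μ • ContinuousLinearMap.id ℂ H) := by
    have h1 : A - μ • ContinuousLinearMap.id ℂ H
        = (U : H →L[ℂ] H) * (1 - (-((↑U⁻¹ : H →L[ℂ] H) * (A - C)))) := by
      rw [sub_neg_eq_add, mul_add, mul_one, ← mul_assoc, U.mul_inv, one_mul, hU, hX]
      abel
    rw [h1]
    apply IsUnit.mul U.isUnit
    apply isUnit_one_sub_of_norm_lt_one
    rw [norm_neg]
    calc ‖(↑U⁻¹ : H →L[ℂ] H) * (A - C)‖ ≤ ‖(↑U⁻¹ : H →L[ℂ] H)‖ * ‖A - C‖ := norm_mul_le _ _
      _ ≤ 1 / m * ‖A - C‖ := mul_le_mul_of_nonneg_right hUinv (norm_nonneg _)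
      _ < 1 / m * m := mul_lt_mul_of_pos_left hA (by positivity)
      _ = 1 := by field_simp
  intro hmem
  apply hmem
  have h2 : algebraMap ℂ (H →L[ℂ] H) μ - A = -(A - μ • ContinuousLinearMap.id ℂ H) := by
    rw [Algebra.algebraMap_eq_smul_one]
    simp only [neg_sub]
    rfl
  rw [spectrum.mem_resolventSet_iff, h2]
  exact hunit.neg

/-- the space of vectors caught by the moving cuts. -/
theorem exists_M (A : H →L[ℂ] H) (C : ℕ → H →L[ℂ] H) (c D : ℕ → ℝ) (N : ℕ → Submodule ℂ H)
    [∀ k, (N k).HasOrthogonalProjection]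
    (hN : ∀ k, Left (C k) (c k) (D k) (N k))
    (hN' : ∀ k, Left (-(ContinuousLinearMap.adjoint (C k))) (-(c k)) (D k) (N k)ᗮ)
    (hD : ∀ k, 0 ≤ D k) (hc : ∀ k, c k < c (k + 1))
    (hsum : Summable fun k => 2 / (c (k + 1) - c k)
      * Real.exp (8 * (D k + D (k + 1)) / (c (k + 1) - c k) ^ 2) * (‖A - C k‖ + ‖A - C (k + 1)‖))
    {z : ℂ} (hz : z ∈ spectrum ℂ A) (hzc : z.re < c 0)
    (hres : ∀ᶠ k in atTop, ‖A - C k‖ <
      (c 0 - z.re) / 2 * Real.exp (-(2 * D k / (c 0 - z.re) ^ 2))) :
    ∃ M : Submodule ℂ H, IsClosed (M : Set H) ∧ M ≠ ⊥ ∧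
      (∀ T : H →L[ℂ] H, T.comp A = A.comp T → ∀ x ∈ M, T x ∈ M) ∧
      ∀ x ∈ M, Tendsto (fun k => (N k).starProjection x) atTop (𝓝 x) := by
  set ε : ℕ → ℝ := fun k => 2 / (c (k + 1) - c k)
      * Real.exp (8 * (D k + D (k + 1)) / (c (k + 1) - c k) ^ 2) * (‖A - C k‖ + ‖A - C (k + 1)‖)
    with hε
  have hε0 : ∀ k, 0 ≤ ε k := by
    intro k
    have : 0 < c (k + 1) - c k := by linarith [hc k]
    simp only [hε]
    positivity
  have hmono : StrictMono c := strictMono_nat_of_lt_succ hc
  -- the estimate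
  have hest : ∀ (T : H →L[ℂ] H), T.comp A = A.comp T → ∀ k x, x ∈ N k →
      ‖T x - (N (k + 1)).starProjection (T x)‖ ≤ ε k * ‖T‖ * ‖x‖ := by
    intro T hT k x hx
    set y := T x - (N (k + 1)).starProjection (T x) with hy
    have hymem : y ∈ (N (k + 1))ᗮ := Submodule.sub_starProjection_mem_orthogonal _
    have h1 := (hN k).pair (hN' (k + 1)) (by linarith [hc k]) T
      (g := ‖T‖ * (‖A - C k‖ + ‖A - C (k + 1)‖)) (by positivity)
      (by
        intro w
        have h2 : T (C k w) + ContinuousLinearMap.adjoint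
            (-(ContinuousLinearMap.adjoint (C (k + 1)))) (T w)
            = -(T ((A - C k) w)) + (A - C (k + 1)) (T w) := by
          have h3 : T (A w) = A (T w) := by
            have := congrArg (fun f : H →L[ℂ] H => f w) hT
            simpa using this
          rw [map_neg, ContinuousLinearMap.adjoint_adjoint]
          simp only [neg_apply, sub_apply, map_sub]
          rw [h3]
          abel
        rw [h2]
        calc ‖-(T ((A - C k) w)) + (A - C (k + 1)) (T w)‖
            ≤ ‖T ((A - C k) w)‖ + ‖(A - C (k + 1)) (T w)‖ := by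
              refine (norm_add_le _ _).trans (le_of_eq ?_)
              rw [norm_neg]
          _ ≤ ‖T‖ * (‖A - C k‖ * ‖w‖) + ‖A - C (k + 1)‖ * (‖T‖ * ‖w‖) := by
              apply add_le_add
              · exact (T.le_opNorm _).trans (mul_le_mul_of_nonneg_left
                  ((A - C k).le_opNorm _) (norm_nonneg _))
              · exact ((A - C (k + 1)).le_opNorm _).trans (mul_le_mul_of_nonneg_left
                  (T.le_opNorm _) (norm_nonneg _))
          _ = _ := by ring)
      hx hymem
    have h4 : (inner ℂ y (T x) : ℂ) = ((‖y‖ ^ 2 : ℝ) : ℂ) := by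
      have h5 : T x = y + (N (k + 1)).starProjection (T x) := by
        rw [hy]
        abel
      rw [h5, inner_add_right]
      have h6 : (inner ℂ y ((N (k + 1)).starProjection (T x)) : ℂ) = 0 :=
        Submodule.inner_left_of_mem_orthogonal (Submodule.starProjection_apply_mem _ _) hymem
      rw [h6, add_zero, inner_self_eq_norm_sq_to_K]
      push_cast
      rfl
    rw [h4, norm_real, Real.norm_of_nonneg (sq_nonneg _)] at h1
    have e1 : -(c k + -(c (k + 1))) = c (k + 1) - c k := by ring
    have e2 : (c k + -(c (k + 1))) ^ 2 = (c (k + 1) - c k) ^ 2 := by ring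
    rw [e1, e2] at h1
    rcases (norm_nonneg y).eq_or_lt with h0 | h0
    · rw [← h0]
      have := hε0 k
      positivity
    · have h7 : ‖y‖ * ‖y‖ ≤ (ε k * ‖T‖ * ‖x‖) * ‖y‖ := by
        calc ‖y‖ * ‖y‖ = ‖y‖ ^ 2 := by ring
          _ ≤ _ := h1
          _ = _ := by
            simp only [hε]
            ring
      exact le_of_mul_le_mul_right h7 h0
  -- the subspace
  let M : Submodule ℂ H :=
    { carrier := {x | Tendsto (fun k => (N k).starProjection x) atTop (𝓝 x)}
      add_mem' := by
        intro x y hx hy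
        simp only [Set.mem_ofPred_eq, map_add] at *
        exact hx.add hy
      zero_mem' := by
        simp only [Set.mem_ofPred_eq, map_zero]
        exact tendsto_const_nhds
      smul_mem' := by
        intro a x hx
        simp only [Set.mem_ofPred_eq, map_smul] at *
        exact hx.const_smul a }
  have hMdef : ∀ x, x ∈ M ↔ Tendsto (fun k => (N k).starProjection x) atTop (𝓝 x) := fun x => Iff.rfl
  refine ⟨M, ?_, ?_, ?_, fun x hx => hx⟩
  · -- closed
    apply isClosed_of_closure_subset
    intro x hx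
    rw [SetLike.mem_coe, hMdef, Metric.tendsto_atTop]
    intro r hr
    obtain ⟨y, hyM, hy⟩ := Metric.mem_closure_iff.mp hx (r / 3) (by positivity)
    obtain ⟨k0, hk0⟩ := Metric.tendsto_atTop.mp ((hMdef y).mp hyM) (r / 3) (by positivity)
    refine ⟨k0, fun k hk => ?_⟩
    have h1 : dist ((N k).starProjection x) ((N k).starProjection y) ≤ dist x y := by
      rw [dist_eq_norm, dist_eq_norm, ← map_sub]
      exact Submodule.norm_starProjection_apply_le _ _
    have h2 := hk0 k hk
    calc dist ((N k).starProjection x) x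
        ≤ dist ((N k).starProjection x) ((N k).starProjection y)
          + dist ((N k).starProjection y) y + dist y x := dist_triangle4 _ _ _ _
      _ < r / 3 + r / 3 + r / 3 := by
          have h3 : dist y x < r / 3 := by rwa [dist_comm]
          linarith
      _ = r := by ring
  · -- nonzero
    have hne : ∀ᶠ k in atTop, N k ≠ ⊥ := by
      filter_upwards [hres] with k hk
      intro hbot
      have h1 := hN' k
      rw [hbot, Submodule.bot_orthogonal_eq_top] at h1
      have hck : c 0 ≤ c k := hmono.monotone (Nat.zero_le k)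
      have hmu : -(c k) < (-(starRingEnd ℂ z)).re := by
        simp only [neg_re, conj_re]
        linarith
      have h2 : ‖-(ContinuousLinearMap.adjoint A) - -(ContinuousLinearMap.adjoint (C k))‖
          = ‖A - C k‖ := by
        rw [← neg_sub', norm_neg, ← map_sub]
        exact LinearIsometryEquiv.norm_map _ _
      have h3 : ‖-(ContinuousLinearMap.adjoint A) - -(ContinuousLinearMap.adjoint (C k))‖
          < ((-(starRingEnd ℂ z)).re - -(c k)) / 2
            * Real.exp (-(2 * D k / ((-(starRingEnd ℂ z)).re - -(c k)) ^ 2)) := by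
        rw [h2]
        refine hk.trans_le ?_
        have e1 : (-(starRingEnd ℂ z)).re - -(c k) = c k - z.re := by
          simp only [neg_re, conj_re]
          ring
        rw [e1]
        have h4 : 0 < c 0 - z.re := by linarith
        have h5 : c 0 - z.re ≤ c k - z.re := by linarith
        apply mul_le_mul (by linarith) _ (Real.exp_pos _).le (by linarith)
        apply Real.exp_le_exp.mpr
        rw [neg_le_neg_iff]
        apply div_le_div_of_nonneg_left (by linarith [hD k]) (by positivity)
        exact pow_le_pow_left₀ h4.le h5 2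
      apply h1.resolvent hmu h3
      have h6 : star z ∈ spectrum ℂ (star A) := by
        rw [spectrum.map_star]
        simpa using hz
      have h7 := spectrum.neg_eq (R := ℂ) (star A)
      have h8 : -(star z) ∈ spectrum ℂ (-(star A)) := by
        rw [← h7]
        simpa using h6
      exact h8
    obtain ⟨k1, hk1⟩ := eventually_atTop.mp hne
    have htail := tendsto_sum_nat_add ε
    obtain ⟨k2, hk2⟩ := eventually_atTop.mp (htail.eventually_lt_const (show (0 : ℝ) < 1 / 2 by norm_num))
    set k0 := max k1 k2 with hk0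
    have hNk0 : N k0 ≠ ⊥ := hk1 k0 (le_max_left _ _)
    have htl : ∑' k, ε (k + k0) < 1 / 2 := hk2 k0 (le_max_right _ _)
    obtain ⟨x0, hx0, hx0n⟩ : ∃ x0 ∈ N k0, ‖x0‖ = 1 := by
      obtain ⟨w, hw, hw0⟩ := Submodule.exists_mem_ne_zero_of_ne_bot hNk0
      refine ⟨((‖w‖⁻¹ : ℝ) : ℂ) • w, (N k0).smul_mem _ hw, ?_⟩
      rw [norm_smul, norm_real, norm_inv, norm_norm]
      exact inv_mul_cancel₀ (norm_ne_zero_iff.mpr hw0)
    let xs : ℕ → H := fun j => Nat.rec x0 (fun j x => (N (k0 + j + 1)).starProjection x) j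
    have hxs0 : xs 0 = x0 := rfl
    have hxss : ∀ j, xs (j + 1) = (N (k0 + j + 1)).starProjection (xs j) := fun j => rfl
    have hxsmem : ∀ j, xs j ∈ N (k0 + j) := by
      intro j
      cases j with
      | zero => exact hx0
      | succ j =>
        rw [hxss]
        exact Submodule.starProjection_apply_mem _ _
    have hxsn : ∀ j, ‖xs j‖ ≤ 1 := by
      intro j
      induction j with
      | zero => rw [hxs0, hx0n]
      | succ j ih =>
        rw [hxss]
        exact (Submodule.norm_starProjection_apply_le _ _).trans ih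
    have hid : (ContinuousLinearMap.id ℂ H).comp A = A.comp (ContinuousLinearMap.id ℂ H) := by
      simp
    have hdist : ∀ j, dist (xs j) (xs j.succ) ≤ ε (j + k0) := by
      intro j
      have h1 := hest (ContinuousLinearMap.id ℂ H) hid (k0 + j) (xs j) (hxsmem j)
      rw [ContinuousLinearMap.id_apply] at h1
      rw [Nat.succ_eq_add_one, hxss, dist_eq_norm, add_comm j k0]
      refine h1.trans ?_
      have h2 := hε0 (k0 + j)
      have h3 : ‖ContinuousLinearMap.id ℂ H‖ ≤ 1 := ContinuousLinearMap.norm_id_le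
      calc ε (k0 + j) * ‖ContinuousLinearMap.id ℂ H‖ * ‖xs j‖
          ≤ ε (k0 + j) * 1 * 1 := by
            have := hxsn j
            gcongr
        _ = ε (k0 + j) := by ring
    have hsum' : Summable fun j => ε (j + k0) := (summable_nat_add_iff k0).mpr hsum
    have hcau := cauchySeq_of_dist_le_of_summable _ hdist hsum'
    obtain ⟨x, hx⟩ := cauchySeq_tendsto_of_complete hcau
    have hd0 := dist_le_tsum_of_dist_le_of_tendsto₀ _ hdist hsum' hx
    have hxne : x ≠ 0 := by
      intro h0
      rw [h0, hxs0, dist_zero_right, hx0n] at hd0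
      linarith
    have hxM : x ∈ M := by
      rw [hMdef]
      have h1 : Tendsto (fun j => (N (j + k0)).starProjection x) atTop (𝓝 x) := by
        rw [tendsto_iff_dist_tendsto_zero]
        have h2 : Tendsto (fun j => 2 * dist (xs j) x) atTop (𝓝 0) := by
          have := (tendsto_iff_dist_tendsto_zero.mp hx).const_mul 2
          simpa using this
        apply squeeze_zero (fun _ => dist_nonneg) _ h2
        intro j
        have h3 : (N (j + k0)).starProjection (xs j) = xs j := by
          rw [Submodule.starProjection_eq_self_iff, add_comm]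
          exact hxsmem j
        calc dist ((N (j + k0)).starProjection x) x
            ≤ dist ((N (j + k0)).starProjection x) ((N (j + k0)).starProjection (xs j))
              + dist ((N (j + k0)).starProjection (xs j)) x := dist_triangle _ _ _
          _ ≤ dist (xs j) x + dist (xs j) x := by
              apply add_le_add
              · rw [dist_eq_norm, ← map_sub, dist_comm, dist_eq_norm]
                exact Submodule.norm_starProjection_apply_le _ _
              · rw [h3]
          _ = 2 * dist (xs j) x := by ring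
      exact (tendsto_add_atTop_iff_nat k0).mp h1
    intro hbot
    rw [hbot] at hxM
    exact hxne ((Submodule.mem_bot ℂ).mp hxM)
  · -- hyperinvariant
    intro T hT x hx
    rw [hMdef] at hx ⊢
    have h1 : Tendsto (fun k => (N (k + 1)).starProjection (T x)) atTop (𝓝 (T x)) := by
      rw [tendsto_iff_dist_tendsto_zero]
      have hx' := tendsto_iff_dist_tendsto_zero.mp hx
      have h2 : Tendsto (fun k => ε k * ‖T‖ * ‖x‖
          + 2 * ‖T‖ * dist ((N k).starProjection x) x) atTop (𝓝 0) := by
        have h3 := ((hsum.tendsto_atTop_zero.mul_const ‖T‖).mul_const ‖x‖).add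
          (hx'.const_mul (2 * ‖T‖))
        simpa using h3
      apply squeeze_zero (fun _ => dist_nonneg) _ h2
      intro k
      set w := (N k).starProjection x with hw
      have hwm : w ∈ N k := Submodule.starProjection_apply_mem _ _
      have h4 := hest T hT k w hwm
      have h5 : ‖w‖ ≤ ‖x‖ := Submodule.norm_starProjection_apply_le _ _
      have h6 : dist (T w) (T x) ≤ ‖T‖ * dist w x := by
        rw [dist_eq_norm, dist_eq_norm, ← map_sub]
        exact T.le_opNorm _
      have h7 : dist ((N (k + 1)).starProjection (T x)) ((N (k + 1)).starProjection (T w))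
          ≤ ‖T‖ * dist w x := by
        refine le_trans ?_ h6
        rw [dist_comm, dist_eq_norm, dist_eq_norm, ← map_sub]
        exact Submodule.norm_starProjection_apply_le _ _
      have h8 : dist ((N (k + 1)).starProjection (T w)) (T w) ≤ ε k * ‖T‖ * ‖x‖ := by
        rw [dist_comm, dist_eq_norm]
        refine h4.trans ?_
        have := hε0 k
        gcongr
      calc dist ((N (k + 1)).starProjection (T x)) (T x)
          ≤ dist ((N (k + 1)).starProjection (T x)) ((N (k + 1)).starProjection (T w))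
            + dist ((N (k + 1)).starProjection (T w)) (T w) + dist (T w) (T x) :=
              dist_triangle4 _ _ _ _
        _ ≤ ‖T‖ * dist w x + ε k * ‖T‖ * ‖x‖ + ‖T‖ * dist w x := by linarith
        _ = _ := by ring
    exact (tendsto_add_atTop_iff_nat 1).mp h1

end ApproxInv
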