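import Pool.Agent.Work.MP_ecaf63_an.Loop

/-!
Sorted Schur bases in finite dimension, and the splitting of a block operator.
-/

open Finset Complex InnerProductSpace Filter Topology

universe u

namespace ApproxInv

/-- Square of Henrici's departure from normality of an operator on a finite-dimensional inner
product space: squared Frobenius norm minus the sum of the squared moduli of the eigenvalues
(with algebraic multiplicity). -/
noncomputable def departureSq {V : Type u} [NormedAddCommGroup V] [InnerProductSpace ℂ V]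
    [FiniteDimensional ℂ V] (T : V →ₗ[ℂ] V) : ℝ :=
  ∑ j, ‖T (stdOrthonormalBasis ℂ V j)‖ ^ 2 - (T.charpoly.roots.map (fun z => ‖z‖ ^ 2)).sum

/-- `e 0, ..., e (d-1)` is an orthonormal family in which `T` is upper triangular. -/
structure Sch {V : Type u} [NormedAddCommGroup V] [InnerProductSpace ℂ V]
    (T : V →ₗ[ℂ] V) (d : ℕ) (e : ℕ → V) : Prop where
  unit : ∀ p < d, (inner ℂ (e p) (e p) : ℂ) = 1
  orth : ∀ p q, p < d → q < d → p ≠ q → (inner ℂ (e p) (e q) : ℂ) = 0
  tri : ∀ q < d, T (e q) = ∑ p ∈ range (q + 1), (inner ℂ (e p) (T (e q)) : ℂ) • e p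

section step

variable {V : Type u} [NormedAddCommGroup V] [InnerProductSpace ℂ V] [FiniteDimensional ℂ V]

/-- compression to the orthogonal complement of a vector. -/
noncomputable def compr (T : V →ₗ[ℂ] V) (v : V) : (ℂ ∙ v)ᗮ →ₗ[ℂ] (ℂ ∙ v)ᗮ :=
  ((ℂ ∙ v)ᗮ.orthogonalProjectionOnto : V →ₗ[ℂ] (ℂ ∙ v)ᗮ) ∘ₗ T ∘ₗ (ℂ ∙ v)ᗮ.subtype

omit [FiniteDimensional ℂ V] in
lemma compr_coe (T : V →ₗ[ℂ] V) {v : V} (hv : ‖v‖ = 1) (w : (ℂ ∙ v)ᗮ) :
    ((compr T v w : (ℂ ∙ v)ᗮ) : V) = T (w : V) - (inner ℂ v (T (w : V)) : ℂ) • v := by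
  simp only [compr, LinearMap.coe_comp, Function.comp_apply, Submodule.coe_subtype]
  have h1 : (((ℂ ∙ v)ᗮ.orthogonalProjectionOnto (T (w : V)) : (ℂ ∙ v)ᗮ) : V)
      = (ℂ ∙ v)ᗮ.starProjection (T (w : V)) := rfl
  have h2 : (ℂ ∙ v)ᗮ.starProjection (T (w : V)) = T (w : V) - (ℂ ∙ v).starProjection (T (w : V)) := by
    rw [Submodule.starProjection_orthogonal_val]
  refine h1.trans (h2.trans ?_)
  rw [Submodule.starProjection_unit_singleton ℂ hv]

omit [FiniteDimensional ℂ V] in
lemma inner_compr (T : V →ₗ[ℂ] V) {v : V} (hv : ‖v‖ = 1) (w w' : (ℂ ∙ v)ᗮ) :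
    (inner ℂ w (compr T v w') : ℂ) = inner ℂ (w : V) (T (w' : V)) := by
  rw [Submodule.coe_inner, compr_coe T hv, inner_sub_right, inner_smul_right]
  have : (inner ℂ (w : V) v : ℂ) = 0 := by
    apply Submodule.inner_left_of_mem_orthogonal (Submodule.mem_span_singleton_self v) w.2
  rw [this, mul_zero, sub_zero]

omit [FiniteDimensional ℂ V] in
lemma eig_compr (T : V →ₗ[ℂ] V) {v : V} (hv : ‖v‖ = 1) {lam : ℂ} (hlam : T v = lam • v) {μ : ℂ}
    (hμ : Module.End.HasEigenvalue (compr T v) μ) : Module.End.HasEigenvalue T μ := by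
  have hv0 : v ≠ 0 := by
    intro h
    rw [h, norm_zero] at hv
    exact zero_ne_one hv
  by_cases hne : μ = lam
  · subst hne
    exact Module.End.hasEigenvalue_of_hasEigenvector
      (Module.End.hasEigenvector_iff.mpr ⟨Module.End.mem_eigenspace_iff.mpr hlam, hv0⟩)
  · obtain ⟨w, hw⟩ := hμ.exists_hasEigenvector
    have hw1 := Module.End.HasEigenvector.apply_eq_smul hw
    have hw0 : (w : V) ≠ 0 := by
      intro h
      exact hw.2 (Subtype.ext h)
    have h1 := compr_coe T hv w
    rw [hw1] at h1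
    set a : ℂ := inner ℂ v (T (w : V)) with ha
    have h2 : T (w : V) = μ • (w : V) + a • v := by
      have : (μ • (w : V)) = T (w : V) - a • v := h1
      rw [this]
      abel
    have hsub : lam - μ ≠ 0 := sub_ne_zero.mpr (Ne.symm hne)
    set x : V := (w : V) - (a / (lam - μ)) • v with hx
    have hTx : T x = μ • x := by
      rw [hx, map_sub, map_smul, h2, hlam, smul_sub, smul_smul, smul_smul]
      have h3 : (a / (lam - μ)) * lam = a + μ * (a / (lam - μ)) := by
        field_simp
        ring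
      rw [h3, add_smul]
      abel
    have hx0 : x ≠ 0 := by
      intro h
      have h4 : (w : V) = (a / (lam - μ)) • v := sub_eq_zero.mp h
      have h5 : (inner ℂ (w : V) (w : V) : ℂ) = 0 := by
        nth_rewrite 2 [h4]
        rw [inner_smul_right]
        have : (inner ℂ (w : V) v : ℂ) = 0 := by
          apply Submodule.inner_left_of_mem_orthogonal (Submodule.mem_span_singleton_self v) w.2
        rw [this, mul_zero]
      exact hw0 (inner_self_eq_zero.mp h5)
    exact Module.End.hasEigenvalue_of_hasEigenvector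
      (Module.End.hasEigenvector_iff.mpr ⟨Module.End.mem_eigenspace_iff.mpr hTx, hx0⟩)

/-- prepend a vector. -/
def consE {v : V} (e' : ℕ → (ℂ ∙ v)ᗮ) : ℕ → V
  | 0 => v
  | q + 1 => (e' q : V)

omit [FiniteDimensional ℂ V] in
lemma sch_step (T : V →ₗ[ℂ] V) {v : V} (hv : ‖v‖ = 1) {lam : ℂ} (hlam : T v = lam • v) {d : ℕ}
    {e' : ℕ → (ℂ ∙ v)ᗮ} (h : Sch (compr T v) d e') :
    Sch T (d + 1) (consE e') := by
  have hv1 : (inner ℂ v v : ℂ) = 1 := by
    rw [inner_self_eq_norm_sq_to_K, hv]
    simp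
  have hve : ∀ q, (inner ℂ v (e' q : V) : ℂ) = 0 := fun q =>
    Submodule.inner_right_of_mem_orthogonal (Submodule.mem_span_singleton_self v) (e' q).2
  have hev : ∀ q, (inner ℂ (e' q : V) v : ℂ) = 0 := fun q =>
    Submodule.inner_left_of_mem_orthogonal (Submodule.mem_span_singleton_self v) (e' q).2
  refine ⟨?_, ?_, ?_⟩
  · intro p hp
    cases p with
    | zero => exact hv1
    | succ p =>
      have := h.unit p (by omega)
      rwa [Submodule.coe_inner] at this
  · intro p q hp hq hpq
    cases p with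
    | zero =>
      cases q with
      | zero => exact absurd rfl hpq
      | succ q => exact hve q
    | succ p =>
      cases q with
      | zero => exact hev p
      | succ q =>
        have := h.orth p q (by omega) (by omega) (by omega)
        rwa [Submodule.coe_inner] at this
  · intro q hq
    cases q with
    | zero =>
      rw [zero_add, range_one, sum_singleton]
      change T v = (inner ℂ v (T v) : ℂ) • v
      rw [hlam, inner_smul_right, hv1, mul_one]
    | succ q =>
      rw [sum_range_succ']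
      change T (e' q : V) = ∑ p ∈ range (q + 1), (inner ℂ (e' p : V) (T (e' q : V)) : ℂ) • (e' p : V)
        + (inner ℂ v (T (e' q : V)) : ℂ) • v
      have h1 := h.tri q (by omega)
      have h2 : ((compr T v (e' q) : (ℂ ∙ v)ᗮ) : V)
          = ∑ p ∈ range (q + 1), (inner ℂ (e' p : V) (T (e' q : V)) : ℂ) • (e' p : V) := by
        rw [h1]
        rw [Submodule.coe_sum]
        refine sum_congr rfl fun p _ => ?_
        rw [Submodule.coe_smul, inner_compr T hv]
      rw [compr_coe T hv] at h2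
      rw [← h2]
      abel

end step

/-- Schur basis avoiding a set of forbidden eigenvalues. -/
lemma schur_all (Q : ℂ → Prop) : ∀ (d : ℕ) (V : Type u) [NormedAddCommGroup V]
    [InnerProductSpace ℂ V] [FiniteDimensional ℂ V] (T : V →ₗ[ℂ] V), Module.finrank ℂ V = d →
    (∀ μ, Q μ → ¬ Module.End.HasEigenvalue T μ) →
    ∃ e : ℕ → V, Sch T d e ∧ ∀ p < d, ¬ Q (inner ℂ (e p) (T (e p))) := by
  intro d
  induction d with
  | zero =>
    intro V _ _ _ T _ _
    exact ⟨fun _ => 0, ⟨by simp, by simp, by simp⟩, by simp⟩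
  | succ d ih =>
    intro V _ _ _ T hd hQ
    have : Nontrivial V := Module.nontrivial_of_finrank_pos (R := ℂ) (by omega)
    obtain ⟨lam, hlam⟩ := Module.End.exists_eigenvalue T
    obtain ⟨v0, hv0⟩ := hlam.exists_hasEigenvector
    have hv0' := Module.End.HasEigenvector.apply_eq_smul hv0
    set v : V := ((‖v0‖⁻¹ : ℝ) : ℂ) • v0 with hv
    have hvn : ‖v‖ = 1 := by
      rw [hv, norm_smul, norm_real, norm_inv, norm_norm]
      exact inv_mul_cancel₀ (norm_ne_zero_iff.mpr hv0.2)
    have hTv : T v = lam • v := by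
      rw [hv, map_smul, hv0', smul_comm]
    have hfr : Module.finrank ℂ (ℂ ∙ v)ᗮ = d := by
      have : Fact (Module.finrank ℂ V = d + 1) := ⟨hd⟩
      apply Submodule.finrank_orthogonal_span_singleton
      intro h0
      rw [h0, norm_zero] at hvn
      exact zero_ne_one hvn
    obtain ⟨e', he', hQ'⟩ := ih (ℂ ∙ v)ᗮ (compr T v) hfr
      (fun μ hμ h => hQ μ hμ (eig_compr T hvn hTv h))
    refine ⟨_, sch_step T hvn hTv he', ?_⟩
    intro p hp
    cases p with
    | zero =>
      change ¬ Q (inner ℂ v (T v))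
      rw [hTv, inner_smul_right, inner_self_eq_norm_sq_to_K, hvn]
      simp only [RCLike.ofReal_one, one_pow, mul_one]
      intro h
      exact hQ lam h hlam
    | succ p =>
      have := hQ' p (by omega)
      rwa [inner_compr T hvn] at this

/-- sorted Schur basis: the diagonal entries with property `Q` come first. -/
lemma schur_sorted (Q : ℂ → Prop) : ∀ (d : ℕ) (V : Type u) [NormedAddCommGroup V]
    [InnerProductSpace ℂ V] [FiniteDimensional ℂ V] (T : V →ₗ[ℂ] V), Module.finrank ℂ V = d →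
    ∃ (k : ℕ) (e : ℕ → V), k ≤ d ∧ Sch T d e ∧ (∀ p < k, Q (inner ℂ (e p) (T (e p)))) ∧
      ∀ p, k ≤ p → p < d → ¬ Q (inner ℂ (e p) (T (e p))) := by
  intro d
  induction d with
  | zero =>
    intro V _ _ _ T _
    exact ⟨0, fun _ => 0, le_rfl, ⟨by simp, by simp, by simp⟩, by simp, by simp⟩
  | succ d ih =>
    intro V _ _ _ T hd
    by_cases hex : ∃ μ, Q μ ∧ Module.End.HasEigenvalue T μ
    · obtain ⟨lam, hQlam, hlam⟩ := hex
      obtain ⟨v0, hv0⟩ := hlam.exists_hasEigenvector
      have hv0' := Module.End.HasEigenvector.apply_eq_smul hv0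
      set v : V := ((‖v0‖⁻¹ : ℝ) : ℂ) • v0 with hv
      have hvn : ‖v‖ = 1 := by
        rw [hv, norm_smul, norm_real, norm_inv, norm_norm]
        exact inv_mul_cancel₀ (norm_ne_zero_iff.mpr hv0.2)
      have hTv : T v = lam • v := by
        rw [hv, map_smul, hv0', smul_comm]
      have hfr : Module.finrank ℂ (ℂ ∙ v)ᗮ = d := by
        have : Fact (Module.finrank ℂ V = d + 1) := ⟨hd⟩
        apply Submodule.finrank_orthogonal_span_singleton
        intro h0
        rw [h0, norm_zero] at hvn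
        exact zero_ne_one hvn
      obtain ⟨k, e', hk, he', hQ1, hQ2⟩ := ih (ℂ ∙ v)ᗮ (compr T v) hfr
      refine ⟨k + 1, _, by omega, sch_step T hvn hTv he', ?_, ?_⟩
      · intro p hp
        cases p with
        | zero =>
          change Q (inner ℂ v (T v))
          rw [hTv, inner_smul_right, inner_self_eq_norm_sq_to_K, hvn]
          simpa using hQlam
        | succ p =>
          have := hQ1 p (by omega)
          rwa [inner_compr T hvn] at this
      · intro p hp1 hp2
        cases p with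
        | zero => omega
        | succ p =>
          have := hQ2 p (by omega) (by omega)
          rwa [inner_compr T hvn] at this
    · push Not at hex
      obtain ⟨e, he, hQ⟩ := schur_all Q (d + 1) V T hd hex
      exact ⟨0, e, Nat.zero_le _, he, by simp, fun p _ hp => hQ p hp⟩

lemma frob_adj {V : Type u} [NormedAddCommGroup V] [InnerProductSpace ℂ V]
    [FiniteDimensional ℂ V] (T : V →ₗ[ℂ] V) {ι κ : Type*} [Fintype ι] [Fintype κ]
    (b : OrthonormalBasis ι ℂ V) (b' : OrthonormalBasis κ ℂ V) :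
    ∑ j, ‖T (b j)‖ ^ 2 = ∑ k, ‖(LinearMap.adjoint T) (b' k)‖ ^ 2 := by
  have h1 : ∀ j, ‖T (b j)‖ ^ 2 = ∑ k, ‖(inner ℂ (b' k) (T (b j)) : ℂ)‖ ^ 2 := fun j =>
    (b'.sum_sq_norm_inner_right _).symm
  have h2 : ∀ k, ‖(LinearMap.adjoint T) (b' k)‖ ^ 2
      = ∑ j, ‖(inner ℂ (b' k) (T (b j)) : ℂ)‖ ^ 2 := by
    intro k
    rw [← b.sum_sq_norm_inner_left]
    refine sum_congr rfl fun j _ => ?_
    rw [LinearMap.adjoint_inner_left]
  rw [sum_congr rfl fun j _ => h1 j, sum_comm, sum_congr rfl fun k _ => (h2 k)]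

/-- the Frobenius norm does not depend on the basis. -/
lemma frob_indep {V : Type u} [NormedAddCommGroup V] [InnerProductSpace ℂ V]
    [FiniteDimensional ℂ V] (T : V →ₗ[ℂ] V) {ι κ : Type*} [Fintype ι] [Fintype κ]
    (b : OrthonormalBasis ι ℂ V) (b' : OrthonormalBasis κ ℂ V) :
    ∑ j, ‖T (b j)‖ ^ 2 = ∑ k, ‖T (b' k)‖ ^ 2 := by
  rw [frob_adj T b b, ← frob_adj T b' b]

/-- the strictly upper part of a Schur matrix has the Frobenius norm given by the departure. -/
lemma sch_departure {V : Type u} [NormedAddCommGroup V] [InnerProductSpace ℂ V]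
    [FiniteDimensional ℂ V] {T : V →ₗ[ℂ] V} {d : ℕ} {e : ℕ → V} (h : Sch T d e)
    (hd : Module.finrank ℂ V = d) :
    (∑ p ∈ range d, ∑ q ∈ Ico (p + 1) d, ‖(inner ℂ (e p) (T (e q)) : ℂ)‖ ^ 2 = departureSq T) ∧
      ∀ x : V, x = ∑ p ∈ range d, (inner ℂ (e p) x : ℂ) • e p := by
  classical
  have hon : Orthonormal ℂ (fun p : Fin d => e p) := by
    rw [orthonormal_iff_ite]
    intro i j
    by_cases hij : i = j
    · subst hij
      simp only [if_true]
      exact h.unit i i.2
    · rw [if_neg hij]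
      exact h.orth i j i.2 j.2 (fun h' => hij (Fin.ext h'))
  have hspan : ⊤ ≤ Submodule.span ℂ (Set.range (fun p : Fin d => e p)) := by
    rw [hon.linearIndependent.span_eq_top_of_card_eq_finrank' (by simp [hd])]
  set b : OrthonormalBasis (Fin d) ℂ V := OrthonormalBasis.mk hon hspan with hb
  have hbe : ∀ p : Fin d, b p = e p := fun p => by
    rw [hb]
    exact congrFun (OrthonormalBasis.coe_mk hon hspan) p
  refine ⟨?_, ?_⟩
  · have hentry : ∀ i j : Fin d, LinearMap.toMatrix b.toBasis b.toBasis T i j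
        = inner ℂ (e i) (T (e j)) := by
      intro i j
      rw [LinearMap.toMatrix_apply]
      rw [OrthonormalBasis.coe_toBasis, OrthonormalBasis.coe_toBasis_repr_apply,
        OrthonormalBasis.repr_apply_apply, hbe, hbe]
    have hzero : ∀ p q, p < d → q < d → q < p → (inner ℂ (e p) (T (e q)) : ℂ) = 0 := by
      intro p q hp hq hqp
      rw [h.tri q hq, inner_sum]
      apply sum_eq_zero
      intro r hr
      have := mem_range.mp hr
      rw [inner_smul_right, h.orth p r hp (by omega) (by omega), mul_zero]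
    have hup : (LinearMap.toMatrix b.toBasis b.toBasis T).IsUpperTriangular := by
      intro i j hij
      rw [hentry]
      exact hzero i j i.2 j.2 hij
    have hchar : T.charpoly = ∏ i : Fin d, (Polynomial.X - Polynomial.C (inner ℂ (e i) (T (e i)) : ℂ)) := by
      rw [← LinearMap.charpoly_toMatrix T b.toBasis, Matrix.charpoly_of_isUpperTriangular _ hup]
      refine prod_congr rfl fun i _ => ?_
      rw [hentry]
    have hroots : T.charpoly.roots = (univ : Finset (Fin d)).val.map
        (fun i : Fin d => (inner ℂ (e i) (T (e i)) : ℂ)) := by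
      rw [hchar]
      have : ∏ i : Fin d, (Polynomial.X - Polynomial.C (inner ℂ (e i) (T (e i)) : ℂ))
          = (((univ : Finset (Fin d)).val.map (fun i : Fin d => (inner ℂ (e i) (T (e i)) : ℂ))).map
            (fun a => Polynomial.X - Polynomial.C a)).prod := by
        rw [Multiset.map_map]
        rfl
      rw [this, Polynomial.roots_multiset_prod_X_sub_C]
    have hsumroots : (T.charpoly.roots.map (fun z => ‖z‖ ^ 2)).sum
        = ∑ p ∈ range d, ‖(inner ℂ (e p) (T (e p)) : ℂ)‖ ^ 2 := by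
      rw [hroots, Multiset.map_map, ← Fin.sum_univ_eq_sum_range
        (fun p => ‖(inner ℂ (e p) (T (e p)) : ℂ)‖ ^ 2) d]
      rfl
    have hfrob : ∑ j, ‖T (stdOrthonormalBasis ℂ V j)‖ ^ 2
        = ∑ q ∈ range d, ∑ p ∈ range d, ‖(inner ℂ (e p) (T (e q)) : ℂ)‖ ^ 2 := by
      rw [frob_indep T (stdOrthonormalBasis ℂ V) b, ← Fin.sum_univ_eq_sum_range
        (fun q => ∑ p ∈ range d, ‖(inner ℂ (e p) (T (e q)) : ℂ)‖ ^ 2) d]
      refine sum_congr rfl fun q _ => ?_
      rw [← b.sum_sq_norm_inner_right, ← Fin.sum_univ_eq_sum_range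
        (fun p => ‖(inner ℂ (e p) (T (e q)) : ℂ)‖ ^ 2) d]
      refine sum_congr rfl fun p _ => ?_
      rw [hbe, hbe]
    rw [departureSq, hsumroots, hfrob, sum_comm]
    rw [eq_sub_iff_add_eq, ← sum_add_distrib]
    refine sum_congr rfl fun p hp => ?_
    have hp' := mem_range.mp hp
    rw [add_comm, ← sum_eq_sum_Ico_succ_bot hp' (fun q => ‖(inner ℂ (e p) (T (e q)) : ℂ)‖ ^ 2)]
    rw [range_eq_Ico, ← sum_Ico_consecutive _ (Nat.zero_le p) hp'.le]
    rw [← range_eq_Ico, sum_eq_zero (s := range p), zero_add]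
    intro q hq
    have hq' := mem_range.mp hq
    rw [hzero p q hp' (by omega) hq', norm_zero]
    simp
  · intro x
    have := b.sum_repr' x
    rw [← Fin.sum_univ_eq_sum_range (fun p => (inner ℂ (e p) x : ℂ) • e p) d]
    nth_rewrite 1 [← this]
    refine sum_congr rfl fun p _ => ?_
    rw [hbe]

end ApproxInv
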