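import Pool.Agent.Work.MP_ecaf63_an.Schur

/-!
Block operators and their splitting along a line.
-/

open Finset Complex InnerProductSpace Filter Topology

universe u

namespace ApproxInv

variable {H : Type u} [NormedAddCommGroup H] [InnerProductSpace ℂ H] [CompleteSpace H]

/-- `B` is an orthogonal (Hilbert) direct sum of finite-dimensional blocks, each of which has
departure from normality at most `√D`: there is a family of pairwise orthogonal finite-dimensional
subspaces with dense linear span, each invariant under `B` and `B*`, such that the restriction of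
`B` to each of them has squared departure at most `D`. -/
def BlockDeparture (D : ℝ) (B : H →L[ℂ] H) : Prop :=
  ∃ 𝒱 : Set (Submodule ℂ H), 𝒱.Pairwise (fun V W => V ⟂ W) ∧
    (sSup 𝒱).topologicalClosure = ⊤ ∧
    ∀ V ∈ 𝒱, (∀ x ∈ V, ContinuousLinearMap.adjoint B x ∈ V) ∧
      ∃ (_ : FiniteDimensional ℂ V) (h : ∀ x ∈ V, (B : H →ₗ[ℂ] H) x ∈ V),
        departureSq ((B : H →ₗ[ℂ] H).restrict h) ≤ D

omit [CompleteSpace H] in
/-- one block: sorted Schur basis inside the big space. -/
lemma block_basis {B : H →L[ℂ] H} {D : ℝ} {V : Submodule ℂ H} (Q : ℂ → Prop)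
    (hV : ∃ (_ : FiniteDimensional ℂ V) (h : ∀ x ∈ V, (B : H →ₗ[ℂ] H) x ∈ V),
        departureSq ((B : H →ₗ[ℂ] H).restrict h) ≤ D) :
    ∃ (d k : ℕ) (e : ℕ → H), k ≤ d ∧ (∀ p, e p ∈ V) ∧
      (∀ p < d, (inner ℂ (e p) (e p) : ℂ) = 1) ∧
      (∀ p q, p < d → q < d → p ≠ q → (inner ℂ (e p) (e q) : ℂ) = 0) ∧
      (∀ q < d, B (e q) = ∑ p ∈ range (q + 1), (inner ℂ (e p) (B (e q)) : ℂ) • e p) ∧
      (∀ p < k, Q (inner ℂ (e p) (B (e p)))) ∧
      (∀ p, k ≤ p → p < d → ¬ Q (inner ℂ (e p) (B (e p)))) ∧
      (∑ p ∈ range d, ∑ q ∈ Ico (p + 1) d, ‖(inner ℂ (e p) (B (e q)) : ℂ)‖ ^ 2 ≤ D) ∧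
      (∀ x ∈ V, x = ∑ p ∈ range d, (inner ℂ (e p) x : ℂ) • e p) := by
  obtain ⟨_, h, hdep⟩ := hV
  set T := (B : H →ₗ[ℂ] H).restrict h with hT
  have hTapp : ∀ x : V, ((T x : V) : H) = B (x : H) := fun x => rfl
  obtain ⟨k, e, hk, he, hQ1, hQ2⟩ := schur_sorted Q (Module.finrank ℂ V) V T rfl
  obtain ⟨hd1, hd2⟩ := sch_departure he rfl
  refine ⟨Module.finrank ℂ V, k, fun p => (e p : H), hk, fun p => (e p).2, ?_, ?_, ?_, ?_, ?_, ?_, ?_⟩
  · intro p hp
    exact he.unit p hp
  · intro p q hp hq hpq
    exact he.orth p q hp hq hpq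
  · intro q hq
    have h2 := congrArg (fun x : V => (x : H)) (he.tri q hq)
    simp only [hTapp] at h2
    refine h2.trans ?_
    rw [Submodule.coe_sum]
    refine sum_congr rfl fun p _ => ?_
    rw [Submodule.coe_smul]
    rfl
  · intro p hp
    exact hQ1 p hp
  · intro p hp1 hp2
    exact hQ2 p hp1 hp2
  · refine le_trans (le_of_eq ?_) (hd1.le.trans hdep)
    rfl
  · intro x hx
    have := congrArg (fun x : V => (x : H)) (hd2 ⟨x, hx⟩)
    simp only [Submodule.coe_sum, Submodule.coe_smul] at this
    exact this

/-- splitting of a block operator along a line. -/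
lemma BlockDeparture.split {B : H →L[ℂ] H} {D : ℝ} (hB : BlockDeparture D B) {w : ℂ}
    (hw : ‖w‖ = 1) (c : ℝ) :
    ∃ N : Submodule ℂ H, Left (w • B) c D N ∧
      Left (-(ContinuousLinearMap.adjoint (w • B))) (-c) D Nᗮ := by
  classical
  obtain ⟨𝒱, hpair, hdense, hV⟩ := hB
  choose d k e hk heV hunit horth htri hQ1 hQ2 hdep hexp using
    fun V : 𝒱 => block_basis (fun z => (w * z).re ≤ c) (hV V V.2).2
  -- orthogonality between blocks
  have horth' : ∀ (V W : 𝒱) (p q : ℕ), V ≠ W → (inner ℂ (e V p) (e W q) : ℂ) = 0 := by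
    intro V W p q hVW
    have h1 := hpair V.2 W.2 (fun h => hVW (Subtype.ext h))
    exact (Submodule.isOrtho_iff_inner_eq.mp h1) _ (heV V p) _ (heV W q)
  have hwB : ∀ x, (w • B) x = w • B x := fun x => rfl
  have hsys1 : LeftSys (w • B) c D k e := by
    refine ⟨?_, ?_, ?_, ?_, ?_⟩
    · intro V p hp
      exact hunit V p (hp.trans_le (hk V))
    · intro V W p q hp hq hne
      by_cases hVW : V = W
      · subst hVW
        exact horth V p q (hp.trans_le (hk V)) (hq.trans_le (hk V)) (fun h => hne ⟨rfl, h⟩)
      · exact horth' V W p q hVW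
    · intro V q hq
      rw [hwB]
      nth_rewrite 1 [htri V q (hq.trans_le (hk V))]
      rw [smul_sum]
      refine sum_congr rfl fun p _ => ?_
      rw [inner_smul_right, smul_smul]
    · intro V p hp
      rw [hwB, inner_smul_right]
      exact hQ1 V p hp
    · intro V
      refine le_trans ?_ (hdep V)
      calc ∑ p ∈ range (k V), ∑ q ∈ Ico (p + 1) (k V), ‖(inner ℂ (e V p) ((w • B) (e V q)) : ℂ)‖ ^ 2
          = ∑ p ∈ range (k V), ∑ q ∈ Ico (p + 1) (k V), ‖(inner ℂ (e V p) (B (e V q)) : ℂ)‖ ^ 2 := by
            refine sum_congr rfl fun p _ => sum_congr rfl fun q _ => ?_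
            rw [hwB, inner_smul_right, norm_mul, hw, one_mul]
        _ ≤ ∑ p ∈ range (k V), ∑ q ∈ Ico (p + 1) (d V), ‖(inner ℂ (e V p) (B (e V q)) : ℂ)‖ ^ 2 := by
            refine sum_le_sum fun p _ => ?_
            apply sum_le_sum_of_subset_of_nonneg
            · exact Ico_subset_Ico_right (hk V)
            · intro q _ _
              positivity
        _ ≤ _ := by
            apply sum_le_sum_of_subset_of_nonneg
            · exact range_subset_range.mpr (hk V)
            · intro p _ _
              positivity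
  set f : 𝒱 → ℕ → H := fun V r => e V (d V - 1 - r) with hf
  set n' : 𝒱 → ℕ := fun V => d V - k V with hn'
  have hadj : ∀ x, (-(ContinuousLinearMap.adjoint (w • B))) x
      = -(starRingEnd ℂ w • ContinuousLinearMap.adjoint B x) := by
    intro x
    rw [neg_apply, map_smulₛₗ]
    rfl
  have hzero : ∀ (V : 𝒱) (p q : ℕ), p < d V → q < d V → q < p →
      (inner ℂ (e V p) (B (e V q)) : ℂ) = 0 := by
    intro V p q hp hq hqp
    rw [htri V q hq, inner_sum]
    apply sum_eq_zero
    intro r hr
    have := mem_range.mp hr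
    rw [inner_smul_right, horth V p r hp (by omega) (by omega), mul_zero]
  have hinn : ∀ (V : 𝒱) (p q : ℕ), (inner ℂ (e V q)
      ((-(ContinuousLinearMap.adjoint (w • B))) (e V p)) : ℂ)
        = -(starRingEnd ℂ (w * inner ℂ (e V p) (B (e V q)))) := by
    intro V p q
    rw [hadj, inner_neg_right, inner_smul_right, ContinuousLinearMap.adjoint_inner_right,
      map_mul, inner_conj_symm]
  have hsys2 : LeftSys (-(ContinuousLinearMap.adjoint (w • B))) (-c) D n' f := by
    refine ⟨?_, ?_, ?_, ?_, ?_⟩
    · intro V r hr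
      simp only [hn'] at hr
      exact hunit V _ (by omega)
    · intro V W r s hr hs hne
      simp only [hn'] at hr hs
      by_cases hVW : V = W
      · subst hVW
        exact horth V _ _ (by omega) (by omega) (fun h => hne ⟨rfl, by omega⟩)
      · exact horth' V W _ _ hVW
    · intro V r hr
      simp only [hn'] at hr
      simp only [hf]
      set p := d V - 1 - r with hp
      have hpd : p < d V := by omega
      have hmem : (-(ContinuousLinearMap.adjoint (w • B))) (e V p) ∈ (V : Submodule ℂ H) := by
        rw [hadj]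
        exact (V : Submodule ℂ H).neg_mem ((V : Submodule ℂ H).smul_mem _
          ((hV V V.2).1 _ (heV V p)))
      have h1 := hexp V _ hmem
      refine h1.trans ?_
      rw [range_eq_Ico, ← sum_Ico_consecutive _ (Nat.zero_le p) hpd.le, sum_eq_zero (s := Ico 0 p),
        zero_add]
      · -- reindex
        symm
        apply sum_nbij' (fun s => d V - 1 - s) (fun q => d V - 1 - q)
        · intro s hs
          have := mem_range.mp hs
          rw [mem_Ico]
          omega
        · intro q hq
          have := mem_Ico.mp hq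
          rw [mem_range]
          omega
        · intro s hs
          have := mem_range.mp hs
          omega
        · intro q hq
          have := mem_Ico.mp hq
          omega
        · intro s hs
          rfl
      · intro q hq
        have hq' := (mem_Ico.mp hq).2
        rw [hinn, hzero V p q hpd (by omega) hq', mul_zero, map_zero, neg_zero, zero_smul]
    · intro V r hr
      simp only [hn'] at hr
      simp only [hf]
      rw [hinn, neg_re, conj_re]
      have := hQ2 V (d V - 1 - r) (by omega) (by omega)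
      linarith
    · intro V
      refine le_trans ?_ (hdep V)
      set g : ℕ → ℕ → ℝ := fun p q => ‖(inner ℂ (e V p) (B (e V q)) : ℂ)‖ ^ 2 with hg
      have h1 : ∑ s ∈ range (n' V), ∑ r ∈ Ico (s + 1) (n' V),
          ‖(inner ℂ (f V s) ((-(ContinuousLinearMap.adjoint (w • B))) (f V r)) : ℂ)‖ ^ 2
          = ∑ s ∈ range (n' V), ∑ r ∈ Ico (s + 1) (n' V), g (d V - 1 - r) (d V - 1 - s) := by
        refine sum_congr rfl fun s _ => sum_congr rfl fun r _ => ?_
        simp only [hf]
        rw [hinn, norm_neg, RCLike.norm_conj, norm_mul, hw, one_mul]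
      rw [h1, sum_sigma', sum_sigma']
      set φ : (_ : ℕ) × ℕ → (_ : ℕ) × ℕ := fun z => ⟨d V - 1 - z.2, d V - 1 - z.1⟩ with hφ
      have hinj : Set.InjOn φ (((range (n' V)).sigma fun s => Ico (s + 1) (n' V) : Finset _) : Set _) := by
        rintro ⟨s, r⟩ h1 ⟨s', r'⟩ h2 h3
        simp only [coe_sigma, Set.mem_sigma_iff, mem_coe, mem_range, mem_Ico, hn'] at h1 h2
        simp only [hφ, Sigma.mk.injEq, heq_eq_eq] at h3
        obtain ⟨h4, h5⟩ := h3
        have : s = s' := by omega
        have : r = r' := by omega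
        subst s' r'
        rfl
      calc ∑ x ∈ (range (n' V)).sigma fun s => Ico (s + 1) (n' V),
            g (d V - 1 - x.snd) (d V - 1 - x.fst)
          = ∑ x ∈ ((range (n' V)).sigma fun s => Ico (s + 1) (n' V)).image φ, g x.1 x.2 := by
            rw [sum_image hinj]
        _ ≤ ∑ x ∈ (range (d V)).sigma fun p => Ico (p + 1) (d V), g x.1 x.2 := by
            apply sum_le_sum_of_subset_of_nonneg
            · intro x hx
              obtain ⟨⟨s, r⟩, hsr, rfl⟩ := mem_image.mp hx
              simp only [mem_sigma, mem_range, mem_Ico, hn'] at hsr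
              simp only [mem_sigma, mem_range, mem_Ico, hφ]
              omega
            · intro x _ _
              positivity
  refine ⟨(sysSpan k e).topologicalClosure, ⟨_, _, _, hsys1, rfl⟩, ⟨_, _, _, hsys2, ?_⟩⟩
  -- the orthogonal complement
  set N := (sysSpan k e).topologicalClosure with hN
  set N' := (sysSpan n' f).topologicalClosure with hN'
  have hperp : N' ≤ Nᗮ := by
    apply Submodule.topologicalClosure_minimal _ _ (Submodule.isClosed_orthogonal _)
    rw [hN, Submodule.orthogonal_closure]
    apply Submodule.span_le.mpr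
    rintro x ⟨V, r, hr, rfl⟩
    rw [SetLike.mem_coe, Submodule.mem_orthogonal]
    intro y hy
    induction hy using Submodule.span_induction with
    | mem y hy =>
      obtain ⟨W, p, hp, rfl⟩ := hy
      simp only [hn'] at hr
      by_cases hVW : W = V
      · subst hVW
        have := hk W
        exact horth W _ _ (by omega) (by omega) (by omega)
      · exact horth' W V _ _ hVW
    | zero => exact inner_zero_left _
    | add y z _ _ hy hz => rw [inner_add_left, hy, hz, add_zero]
    | smul a y _ hy => rw [inner_smul_left, hy, mul_zero]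
  apply le_antisymm hperp
  intro x hx
  have hcl : IsClosed (N' : Set H) := Submodule.isClosed_topologicalClosure _
  have : CompleteSpace N' := hcl.completeSpace_coe
  set x' := x - N'.starProjection x with hx'
  have hx'1 : x' ∈ N'ᗮ := Submodule.sub_starProjection_mem_orthogonal _
  have hx'2 : x' ∈ Nᗮ := Nᗮ.sub_mem hx (hperp (Submodule.starProjection_apply_mem _ _))
  have hx'0 : x' ∈ ((sSup 𝒱).topologicalClosure)ᗮ := by
    rw [Submodule.orthogonal_closure, Submodule.mem_orthogonal]
    intro y hy
    have hle : sSup 𝒱 ≤ (ℂ ∙ x')ᗮ := by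
      apply sSup_le
      intro V hVmem y hy
      rw [Submodule.mem_orthogonal_singleton_iff_inner_left]
      rw [hexp ⟨V, hVmem⟩ y hy, sum_inner]
      apply sum_eq_zero
      intro p hp
      have hp' := mem_range.mp hp
      rw [inner_smul_left]
      have h0 : (inner ℂ (e ⟨V, hVmem⟩ p) x' : ℂ) = 0 := by
        by_cases hpk : p < k ⟨V, hVmem⟩
        · apply Submodule.inner_right_of_mem_orthogonal _ hx'2
          exact Submodule.le_topologicalClosure _ (Submodule.subset_span ⟨_, p, hpk, rfl⟩)
        · apply Submodule.inner_right_of_mem_orthogonal _ hx'1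
          have h1 : d ⟨V, hVmem⟩ - 1 - p < n' ⟨V, hVmem⟩ := by
            simp only [hn']
            omega
          have h2 : e ⟨V, hVmem⟩ p = f ⟨V, hVmem⟩ (d ⟨V, hVmem⟩ - 1 - p) := by
            simp only [hf]
            congr 1
            omega
          exact Submodule.le_topologicalClosure _ (Submodule.subset_span ⟨⟨V, hVmem⟩, _, h1, h2⟩)
      rw [h0, mul_zero]
    exact (Submodule.mem_orthogonal_singleton_iff_inner_left.mp (hle hy))
  rw [hdense, Submodule.top_orthogonal_eq_bot, Submodule.mem_bot] at hx'0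
  have : x = N'.starProjection x := sub_eq_zero.mp hx'0
  rw [this]
  exact Submodule.starProjection_apply_mem _ _

end ApproxInv
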