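import Pool.Agent.Work.MP_ecaf63_an.Weights

/-!
Triangular systems with controlled strictly upper part, the estimate for two such systems,
and the lower bound for one such system.
-/

open Finset Complex InnerProductSpace

universe u

namespace ApproxInv

variable {H : Type u} [NormedAddCommGroup H] [InnerProductSpace ℂ H]

/-- An orthonormal family, grouped in blocks of finite length, in which `C` is upper triangular,
with diagonal entries of real part at most `c` and strictly upper parts of squared Frobenius norm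
at most `D`. -/
structure LeftSys (C : H →L[ℂ] H) (c D : ℝ) {ι : Type u} (n : ι → ℕ) (e : ι → ℕ → H) :
    Prop where
  unit : ∀ i p, p < n i → (inner ℂ (e i p) (e i p) : ℂ) = 1
  orth : ∀ i j p q, p < n i → q < n j → ¬ (i = j ∧ p = q) → (inner ℂ (e i p) (e j q) : ℂ) = 0
  tri : ∀ i q, q < n i → C (e i q) = ∑ p ∈ range (q + 1), inner ℂ (e i p) (C (e i q)) • e i p
  diag : ∀ i p, p < n i → (inner ℂ (e i p) (C (e i p)) : ℂ).re ≤ c
  dep : ∀ i, ∑ p ∈ range (n i), ∑ q ∈ Ico (p + 1) (n i), ‖(inner ℂ (e i p) (C (e i q)) : ℂ)‖ ^ 2 ≤ D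

/-- the linear span of a system. -/
def sysSpan {ι : Type u} (n : ι → ℕ) (e : ι → ℕ → H) : Submodule ℂ H :=
  Submodule.span ℂ {x | ∃ i p, p < n i ∧ x = e i p}

/-- weighted coordinates. -/
noncomputable def wvec {ι : Type u} (F : Finset ι) (n : ι → ℕ) (e : ι → ℕ → H) (w : ι → ℕ → ℝ) :
    (ι → ℕ → ℂ) →ₗ[ℂ] H where
  toFun x := ∑ i ∈ F, ∑ p ∈ range (n i), ((w i p : ℂ) * x i p) • e i p
  map_add' x y := by
    simp only [Pi.add_apply, mul_add, add_smul, sum_add_distrib]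
  map_smul' a x := by
    simp only [Pi.smul_apply, smul_eq_mul, RingHom.id_apply, smul_sum, smul_smul]
    refine sum_congr rfl fun i _ => sum_congr rfl fun p _ => ?_
    congr 1
    ring

/-- the matrix action on coordinates. -/
noncomputable def act {ι : Type u} (n : ι → ℕ) (b : ι → ℕ → ℕ → ℂ) :
    (ι → ℕ → ℂ) →ₗ[ℂ] (ι → ℕ → ℂ) where
  toFun x := fun i p => ∑ q ∈ Ico p (n i), b i p q * x i q
  map_add' x y := by
    funext i p
    simp only [Pi.add_apply, mul_add, sum_add_distrib]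
  map_smul' a x := by
    funext i p
    simp only [Pi.smul_apply, smul_eq_mul, RingHom.id_apply, mul_sum]
    refine sum_congr rfl fun q _ => ?_
    ring

section

variable {ι : Type u} {n : ι → ℕ} {e : ι → ℕ → H} {C : H →L[ℂ] H} {c D : ℝ}

lemma inner_wvec (h : LeftSys C c D n e) (F : Finset ι) (w w' : ι → ℕ → ℝ) (x y : ι → ℕ → ℂ) :
    (inner ℂ (wvec F n e w x) (wvec F n e w' y) : ℂ)
      = ∑ i ∈ F, ∑ p ∈ range (n i), ((w i p * w' i p : ℝ) : ℂ) * (starRingEnd ℂ (x i p) * y i p) := by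
  classical
  simp only [wvec, LinearMap.coe_mk, AddHom.coe_mk]
  rw [sum_inner]
  refine sum_congr rfl fun i hi => ?_
  rw [sum_inner]
  refine sum_congr rfl fun p hp => ?_
  rw [inner_sum, sum_eq_single i]
  · rw [inner_sum, sum_eq_single p]
    · rw [inner_smul_left, inner_smul_right, h.unit i p (mem_range.mp hp)]
      simp only [mul_one, map_mul, conj_ofReal]
      push_cast
      ring
    · intro q hq hqp
      rw [inner_smul_left, inner_smul_right,
        h.orth i i p q (mem_range.mp hp) (mem_range.mp hq) (by tauto)]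
      simp
    · intro hp'
      exact absurd hp hp'
  · intro j hj hji
    rw [inner_sum]
    apply sum_eq_zero
    intro q hq
    rw [inner_smul_left, inner_smul_right,
      h.orth i j p q (mem_range.mp hp) (mem_range.mp hq) (by tauto)]
    simp
  · intro hi'
    exact absurd hi hi'

lemma norm_wvec_sq (h : LeftSys C c D n e) (F : Finset ι) (w : ι → ℕ → ℝ) (x : ι → ℕ → ℂ) :
    ‖wvec F n e w x‖ ^ 2 = ∑ i ∈ F, ∑ p ∈ range (n i), w i p ^ 2 * ‖x i p‖ ^ 2 := by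
  have h1 := inner_wvec h F w w x x
  rw [inner_self_eq_norm_sq_to_K] at h1
  have h2 : ((‖wvec F n e w x‖ ^ 2 : ℝ) : ℂ)
      = ((∑ i ∈ F, ∑ p ∈ range (n i), w i p ^ 2 * ‖x i p‖ ^ 2 : ℝ) : ℂ) := by
    push_cast
    rw [show ((‖wvec F n e w x‖ : ℂ)) ^ 2 = ((‖wvec F n e w x‖ : ℝ) : ℂ) ^ 2 from rfl]
    refine Eq.trans h1 ?_
    refine sum_congr rfl fun i _ => sum_congr rfl fun p _ => ?_
    rw [mul_comm (starRingEnd ℂ (x i p)), mul_conj, normSq_eq_norm_sq]
    push_cast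
    ring
  exact_mod_cast h2

lemma wvec_act (h : LeftSys C c D n e) (F : Finset ι) (x : ι → ℕ → ℂ) :
    wvec F n e (fun _ _ => 1) (act n (fun i p q => inner ℂ (e i p) (C (e i q))) x)
      = C (wvec F n e (fun _ _ => 1) x) := by
  simp only [wvec, act, LinearMap.coe_mk, AddHom.coe_mk, ofReal_one, one_mul]
  rw [map_sum]
  refine sum_congr rfl fun i _ => ?_
  rw [map_sum]
  have h1 : ∀ q ∈ range (n i), C (x i q • e i q)
      = ∑ p ∈ range (n i), if p ≤ q then (x i q * inner ℂ (e i p) (C (e i q))) • e i p else 0 := by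
    intro q hq
    rw [map_smul, h.tri i q (mem_range.mp hq), smul_sum, ← sum_filter]
    have h2 : (range (n i)).filter (fun p => p ≤ q) = range (q + 1) := by
      ext p
      have := mem_range.mp hq
      simp only [mem_filter, mem_range]
      omega
    rw [h2]
    refine sum_congr rfl fun p hp => ?_
    rw [smul_smul]
    congr 2
    rw [← h.tri i q (mem_range.mp hq)]
  rw [sum_congr rfl h1, sum_comm]
  refine sum_congr rfl fun p hp => ?_
  rw [← sum_filter]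
  have h2 : (range (n i)).filter (fun q => p ≤ q) = Ico p (n i) := by
    ext q
    simp only [mem_filter, mem_range, mem_Ico]
    omega
  rw [h2, sum_smul]
  refine sum_congr rfl fun q _ => ?_
  rw [mul_comm]

/-- the weights: existence of a scaled norm for a system. -/
lemma exists_scale (h : LeftSys C c D n e) {η : ℝ} (hη : 0 < η) :
    ∃ w : ι → ℕ → ℝ, ∀ F : Finset ι,
      (∀ x, ‖wvec F n e w x‖ ≤ ‖wvec F n e (fun _ _ => 1) x‖) ∧
      (∀ x, ‖wvec F n e (fun _ _ => 1) x‖ ≤ Real.exp (D / (2 * η ^ 2)) * ‖wvec F n e w x‖) ∧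
      (∀ x, (inner ℂ (wvec F n e w x) (wvec F n e w
        (act n (fun i p q => inner ℂ (e i p) (C (e i q))) x)) : ℂ).re
          ≤ (c + η) * ‖wvec F n e w x‖ ^ 2) := by
  choose W hW1 hW2 hW3 using fun i => block_weight (n i)
    (fun p q => inner ℂ (e i p) (C (e i q))) c η D hη (fun p hp => h.diag i p hp) (h.dep i)
  have hWpos : ∀ i p, 0 < W i p := fun i p => (Real.exp_pos _).trans_le (hW1 i p)
  refine ⟨fun i p => Real.sqrt (W i p), fun F => ⟨?_, ?_, ?_⟩⟩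
  · intro x
    apply le_of_sq_le_sq _ (norm_nonneg _)
    rw [norm_wvec_sq h, norm_wvec_sq h]
    apply sum_le_sum
    intro i _
    apply sum_le_sum
    intro p _
    apply mul_le_mul_of_nonneg_right _ (sq_nonneg _)
    rw [Real.sq_sqrt (hWpos i p).le, one_pow]
    exact hW2 i p
  · intro x
    apply le_of_sq_le_sq _ (by positivity)
    rw [mul_pow, norm_wvec_sq h, norm_wvec_sq h, mul_sum]
    apply sum_le_sum
    intro i _
    rw [mul_sum]
    apply sum_le_sum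
    intro p _
    rw [Real.sq_sqrt (hWpos i p).le, one_pow, ← mul_assoc]
    apply mul_le_mul_of_nonneg_right _ (sq_nonneg _)
    have h1 : Real.exp (D / (2 * η ^ 2)) ^ 2 = Real.exp (D / η ^ 2) := by
      rw [← Real.exp_nat_mul]
      congr 1
      push_cast
      field_simp
    rw [h1]
    have h2 := hW1 i p
    rw [Real.exp_neg] at h2
    rw [inv_le_iff_one_le_mul₀ (Real.exp_pos _)] at h2
    linarith [mul_comm (Real.exp (D / η ^ 2)) (W i p)]
  · intro x
    rw [inner_wvec h, norm_wvec_sq h, re_sum, mul_sum]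
    apply sum_le_sum
    intro i _
    have h1 := hW3 i (x i)
    have h2 : ∑ p ∈ range (n i), Real.sqrt (W i p) ^ 2 * ‖x i p‖ ^ 2
        = ∑ p ∈ range (n i), W i p * ‖x i p‖ ^ 2 :=
      sum_congr rfl fun p _ => by rw [Real.sq_sqrt (hWpos i p).le]
    rw [h2]
    refine le_trans (le_of_eq ?_) h1
    congr 1
    refine sum_congr rfl fun p _ => ?_
    rw [Real.mul_self_sqrt (hWpos i p).le]
    rfl

/-- elements of the span in coordinates. -/
lemma exists_coord {x : H} (hx : x ∈ sysSpan n e) :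
    ∃ (F : Finset ι) (a : ι → ℕ → ℂ), x = wvec F n e (fun _ _ => 1) a := by
  classical
  have key : ∀ (F G : Finset ι) (a : ι → ℕ → ℂ), F ⊆ G → (∀ i ∈ G, i ∉ F → ∀ p, a i p = 0) →
      wvec F n e (fun _ _ => 1) a = wvec G n e (fun _ _ => 1) a := by
    intro F G a hFG h0
    simp only [wvec, LinearMap.coe_mk, AddHom.coe_mk]
    apply sum_subset hFG
    intro i hi hi'
    apply sum_eq_zero
    intro p _
    rw [h0 i hi hi' p]
    simp
  have cut : ∀ (F : Finset ι) (a : ι → ℕ → ℂ),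
      wvec F n e (fun _ _ => 1) (fun i p => if i ∈ F then a i p else 0)
        = wvec F n e (fun _ _ => 1) a := by
    intro F a
    simp only [wvec, LinearMap.coe_mk, AddHom.coe_mk]
    refine sum_congr rfl fun i hi => sum_congr rfl fun p _ => ?_
    simp [hi]
  refine Submodule.span_induction ?_ ?_ ?_ ?_ hx
  · rintro y ⟨i, p, hp, rfl⟩
    refine ⟨{i}, fun j q => if q = p then 1 else 0, ?_⟩
    simp only [wvec, LinearMap.coe_mk, AddHom.coe_mk, sum_singleton, ofReal_one, one_mul]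
    rw [sum_eq_single p]
    · simp
    · intro q _ hq
      simp [hq]
    · intro hp'
      exact absurd (mem_range.mpr hp) hp'
  · exact ⟨∅, 0, by simp⟩
  · rintro y z _ _ ⟨F, a, rfl⟩ ⟨G, b, rfl⟩
    refine ⟨F ∪ G, (fun i p => if i ∈ F then a i p else 0) + (fun i p => if i ∈ G then b i p else 0),
      ?_⟩
    rw [map_add]
    congr 1
    · rw [← cut F a]
      apply key _ _ _ subset_union_left
      intro i _ hi p
      simp [hi]
    · rw [← cut G b]
      apply key _ _ _ subset_union_right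
      intro i _ hi p
      simp [hi]
  · rintro a y _ ⟨F, b, rfl⟩
    exact ⟨F, a • b, by rw [map_smul]⟩

end

variable [CompleteSpace H]

/-- the estimate for two triangular systems. -/
lemma pair_bound {ι₁ ι₂ : Type u} {n₁ : ι₁ → ℕ} {e₁ : ι₁ → ℕ → H} {n₂ : ι₂ → ℕ} {e₂ : ι₂ → ℕ → H}
    {C₁ C₂ : H →L[ℂ] H} {c₁ c₂ D₁ D₂ : ℝ} (h₁ : LeftSys C₁ c₁ D₁ n₁ e₁)
    (h₂ : LeftSys C₂ c₂ D₂ n₂ e₂) (hc : c₁ + c₂ < 0) (T : H →L[ℂ] H) {g : ℝ} (hg0 : 0 ≤ g)
    (hg : ∀ x : H, ‖T (C₁ x) + ContinuousLinearMap.adjoint C₂ (T x)‖ ≤ g * ‖x‖)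
    {x y : H} (hx : x ∈ sysSpan n₁ e₁) (hy : y ∈ sysSpan n₂ e₂) :
    ‖(inner ℂ y (T x) : ℂ)‖
      ≤ 2 / (-(c₁ + c₂)) * Real.exp (8 * (D₁ + D₂) / (c₁ + c₂) ^ 2) * g * ‖x‖ * ‖y‖ := by
  obtain ⟨F, a, rfl⟩ := exists_coord hx
  obtain ⟨G, b, rfl⟩ := exists_coord hy
  set η : ℝ := -(c₁ + c₂) / 4 with hη
  have hηpos : 0 < η := by
    rw [hη]
    linarith
  obtain ⟨w₁, hw₁⟩ := exists_scale h₁ hηpos
  obtain ⟨w₂, hw₂⟩ := exists_scale h₂ hηpos
  obtain ⟨f1, f2, f3⟩ := hw₁ F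
  obtain ⟨g1, g2, g3⟩ := hw₂ G
  set v₁ := wvec F n₁ e₁ (fun _ _ => 1) with hv₁
  set v₂ := wvec G n₂ e₂ (fun _ _ => 1) with hv₂
  set S₁ := wvec F n₁ e₁ w₁ with hS₁
  set S₂ := wvec G n₂ e₂ w₂ with hS₂
  set B₁ := act n₁ (fun i p q => inner ℂ (e₁ i p) (C₁ (e₁ i q))) with hB₁
  set B₂ := act n₂ (fun i p q => inner ℂ (e₂ i p) (C₂ (e₂ i q))) with hB₂
  set k₁ : ℝ := Real.exp (D₁ / (2 * η ^ 2)) with hk₁
  set k₂ : ℝ := Real.exp (D₂ / (2 * η ^ 2)) with hk₂
  have hk₁0 : 0 < k₁ := Real.exp_pos _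
  have hk₂0 : 0 < k₂ := Real.exp_pos _
  have hvB₁ : ∀ x, v₁ (B₁ x) = C₁ (v₁ x) := fun x => wvec_act h₁ F x
  have hvB₂ : ∀ x, v₂ (B₂ x) = C₂ (v₂ x) := fun x => wvec_act h₂ G x
  have hmain := sylvester S₁ S₂ B₁ B₂ (fun x y => inner ℂ (v₂ y) (T (v₁ x)))
    (by
      intro x x' y s
      simp only [map_add, map_smul, inner_add_right, inner_smul_right])
    (by
      intro x y y' s
      simp only [map_add, map_smul, inner_add_left, inner_smul_left, conj_ofReal])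
    (‖T‖ * (k₁ * k₂)) (‖C₁‖ * k₁) (‖C₂‖ * k₂) (c₁ + η) (c₂ + η) (g * (k₁ * k₂))
    (by
      intro x y
      calc ‖(inner ℂ (v₂ y) (T (v₁ x)) : ℂ)‖ ≤ ‖v₂ y‖ * ‖T (v₁ x)‖ := norm_inner_le_norm _ _
        _ ≤ (k₂ * ‖S₂ y‖) * (‖T‖ * (k₁ * ‖S₁ x‖)) := by
            apply mul_le_mul (g2 y) _ (norm_nonneg _) (by positivity)
            exact (T.le_opNorm _).trans (mul_le_mul_of_nonneg_left (f2 x) (norm_nonneg _))
        _ = _ := by ring)
    (by
      intro x
      calc ‖S₁ (B₁ x)‖ ≤ ‖v₁ (B₁ x)‖ := f1 _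
        _ = ‖C₁ (v₁ x)‖ := by rw [hvB₁]
        _ ≤ ‖C₁‖ * ‖v₁ x‖ := C₁.le_opNorm _
        _ ≤ ‖C₁‖ * (k₁ * ‖S₁ x‖) := mul_le_mul_of_nonneg_left (f2 x) (norm_nonneg _)
        _ = _ := by ring)
    (by
      intro x
      calc ‖S₂ (B₂ x)‖ ≤ ‖v₂ (B₂ x)‖ := g1 _
        _ = ‖C₂ (v₂ x)‖ := by rw [hvB₂]
        _ ≤ ‖C₂‖ * ‖v₂ x‖ := C₂.le_opNorm _
        _ ≤ ‖C₂‖ * (k₂ * ‖S₂ x‖) := mul_le_mul_of_nonneg_left (g2 x) (norm_nonneg _)
        _ = _ := by ring)
    f3 g3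
    (by
      intro x y
      have h1 : (inner ℂ (v₂ y) (T (v₁ (B₁ x))) : ℂ) + inner ℂ (v₂ (B₂ y)) (T (v₁ x))
          = inner ℂ (v₂ y) (T (C₁ (v₁ x)) + ContinuousLinearMap.adjoint C₂ (T (v₁ x))) := by
        rw [hvB₁, hvB₂, inner_add_right, ContinuousLinearMap.adjoint_inner_right]
      rw [h1]
      calc ‖(inner ℂ (v₂ y) (T (C₁ (v₁ x)) + ContinuousLinearMap.adjoint C₂ (T (v₁ x))) : ℂ)‖
          ≤ ‖v₂ y‖ * ‖T (C₁ (v₁ x)) + ContinuousLinearMap.adjoint C₂ (T (v₁ x))‖ :=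
            norm_inner_le_norm _ _
        _ ≤ (k₂ * ‖S₂ y‖) * (g * (k₁ * ‖S₁ x‖)) := by
            apply mul_le_mul (g2 y) _ (norm_nonneg _) (by positivity)
            exact (hg _).trans (mul_le_mul_of_nonneg_left (f2 x) hg0)
        _ = _ := by ring)
    (by positivity) (by rw [hη]; linarith) a b
  refine hmain.trans ?_
  have e1 : -(c₁ + η + (c₂ + η)) = -(c₁ + c₂) / 2 := by
    rw [hη]
    ring
  have e2 : k₁ * k₂ = Real.exp (8 * (D₁ + D₂) / (c₁ + c₂) ^ 2) := by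
    rw [hk₁, hk₂, ← Real.exp_add]
    congr 1
    rw [hη]
    have : c₁ + c₂ ≠ 0 := hc.ne
    field_simp
    ring
  rw [e1, e2]
  have h2 : ‖S₁ a‖ * ‖S₂ b‖ ≤ ‖v₁ a‖ * ‖v₂ b‖ :=
    mul_le_mul (f1 a) (g1 b) (norm_nonneg _) (norm_nonneg _)
  have h3 : 0 ≤ g * Real.exp (8 * (D₁ + D₂) / (c₁ + c₂) ^ 2) / (-(c₁ + c₂) / 2) := by
    apply div_nonneg (by positivity)
    linarith
  refine (mul_le_mul_of_nonneg_left h2 h3).trans (le_of_eq ?_)
  have h4 : c₁ + c₂ ≠ 0 := hc.ne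
  field_simp

omit [CompleteSpace H] in
/-- a system is bounded below off the half plane. -/
lemma lower_bound {ι : Type u} {n : ι → ℕ} {e : ι → ℕ → H} {C : H →L[ℂ] H} {c D : ℝ}
    (h : LeftSys C c D n e) {μ : ℂ} (hμ : c < μ.re) {x : H} (hx : x ∈ sysSpan n e) :
    (μ.re - c) / 2 * Real.exp (-(2 * D / (μ.re - c) ^ 2)) * ‖x‖ ≤ ‖C x - μ • x‖ := by
  obtain ⟨F, a, rfl⟩ := exists_coord hx
  set η : ℝ := (μ.re - c) / 2 with hη
  have hηpos : 0 < η := by
    rw [hη]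
    linarith
  obtain ⟨w, hw⟩ := exists_scale h hηpos
  obtain ⟨f1, f2, f3⟩ := hw F
  set v := wvec F n e (fun _ _ => 1) with hv
  set S := wvec F n e w with hS
  set B := act n (fun i p q => inner ℂ (e i p) (C (e i q))) with hB
  have hvB : v (B a) = C (v a) := wvec_act h F a
  have h1 : ‖S (B a - μ • a)‖ ≤ ‖C (v a) - μ • v a‖ := by
    refine (f1 _).trans (le_of_eq ?_)
    rw [map_sub, map_smul, hvB]
  have h2 : η * ‖S a‖ ^ 2 ≤ ‖S a‖ * ‖S (B a - μ • a)‖ := by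
    have h3 : -(inner ℂ (S a) (S (B a - μ • a)) : ℂ).re ≤ ‖S a‖ * ‖S (B a - μ • a)‖ := by
      calc -(inner ℂ (S a) (S (B a - μ • a)) : ℂ).re ≤ |(inner ℂ (S a) (S (B a - μ • a)) : ℂ).re| :=
            neg_le_abs _
        _ ≤ ‖(inner ℂ (S a) (S (B a - μ • a)) : ℂ)‖ := abs_re_le_norm _
        _ ≤ _ := norm_inner_le_norm _ _
    refine le_trans ?_ h3
    rw [map_sub, map_smul, inner_sub_right, inner_smul_right, inner_self_eq_norm_sq_to_K, sub_re]
    have h4 : (μ * ((‖S a‖ : ℝ) : ℂ) ^ 2).re = μ.re * ‖S a‖ ^ 2 := by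
      rw [← ofReal_pow, re_mul_ofReal]
    have h5 := f3 a
    have h6 : (μ * ((RCLike.ofReal ‖S a‖ : ℂ)) ^ 2).re = μ.re * ‖S a‖ ^ 2 := h4
    rw [h6]
    have h7 : c + η = μ.re - η := by
      rw [hη]
      ring
    rw [h7] at h5
    nlinarith
  have h3 : η * ‖S a‖ ≤ ‖S (B a - μ • a)‖ := by
    rcases (norm_nonneg (S a)).eq_or_lt with h0 | h0
    · rw [← h0]
      simp
    · have : ‖S a‖ * (η * ‖S a‖) ≤ ‖S a‖ * ‖S (B a - μ • a)‖ := by
        calc ‖S a‖ * (η * ‖S a‖) = η * ‖S a‖ ^ 2 := by ring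
          _ ≤ _ := h2
      exact le_of_mul_le_mul_left this h0
  have h4 : Real.exp (-(2 * D / (μ.re - c) ^ 2)) * ‖v a‖ ≤ ‖S a‖ := by
    have h5 := f2 a
    have h6 : Real.exp (D / (2 * η ^ 2)) = Real.exp (2 * D / (μ.re - c) ^ 2) := by
      congr 1
      rw [hη]
      have : μ.re - c ≠ 0 := by linarith
      field_simp
    rw [h6] at h5
    rw [Real.exp_neg]
    rw [inv_mul_le_iff₀ (Real.exp_pos _)]
    exact h5
  calc η * Real.exp (-(2 * D / (μ.re - c) ^ 2)) * ‖v a‖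
      = η * (Real.exp (-(2 * D / (μ.re - c) ^ 2)) * ‖v a‖) := by ring
    _ ≤ η * ‖S a‖ := mul_le_mul_of_nonneg_left h4 hηpos.le
    _ ≤ ‖S (B a - μ • a)‖ := h3
    _ ≤ _ := h1

omit [CompleteSpace H] in
/-- off the half plane the range contains the system. -/
lemma span_le_range {ι : Type u} {n : ι → ℕ} {e : ι → ℕ → H} {C : H →L[ℂ] H} {c D : ℝ}
    (h : LeftSys C c D n e) {μ : ℂ} (hμ : c < μ.re) :
    sysSpan n e ≤ LinearMap.range ((C - μ • ContinuousLinearMap.id ℂ H : H →L[ℂ] H) : H →ₗ[ℂ] H) := by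
  apply Submodule.span_le.mpr
  rintro x ⟨i, p, hp, rfl⟩
  induction p using Nat.strong_induction_on with
  | _ p ih =>
    set Rg := LinearMap.range ((C - μ • ContinuousLinearMap.id ℂ H : H →L[ℂ] H) : H →ₗ[ℂ] H)
      with hRg
    have h1 := h.tri i p hp
    have h2 : (inner ℂ (e i p) (C (e i p)) - μ) • e i p
        = (C - μ • ContinuousLinearMap.id ℂ H) (e i p)
          - ∑ q ∈ range p, inner ℂ (e i q) (C (e i p)) • e i q := by
      rw [sum_range_succ] at h1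
      simp only [sub_apply, smul_apply,
        ContinuousLinearMap.id_apply, sub_smul]
      nth_rewrite 2 [h1]
      abel
    have h3 : (inner ℂ (e i p) (C (e i p)) - μ) • e i p ∈ Rg := by
      rw [h2]
      apply Rg.sub_mem
      · exact ⟨e i p, rfl⟩
      · apply Rg.sum_mem
        intro q hq
        apply Rg.smul_mem
        have hq' := mem_range.mp hq
        exact ih q hq' (by omega)
    have h4 : (inner ℂ (e i p) (C (e i p)) - μ : ℂ) ≠ 0 := by
      intro h0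
      have h5 := h.diag i p hp
      rw [sub_eq_zero.mp h0] at h5
      linarith
    have h6 := Rg.smul_mem (inner ℂ (e i p) (C (e i p)) - μ : ℂ)⁻¹ h3
    rwa [smul_smul, inv_mul_cancel₀ h4, one_smul] at h6

end ApproxInv
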