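import Mathlib

/-!
Scaling lemma for triangular matrices and the Sylvester estimate.
-/

open Finset Complex

namespace ApproxInv

/-- telescoping: the weighted masses of the earlier rows sum up to at most `t`. -/
lemma tele (m : ℕ → ℝ) (hm : ∀ i, 0 ≤ m i) {t : ℝ} (ht : 0 < t) (j : ℕ) :
    ∑ i ∈ range j, m i * ∏ l ∈ Ico i j, (1 + m l / t)⁻¹ ≤ t := by
  induction j with
  | zero => simpa using ht.le
  | succ j ih =>
    have hpos : 0 < 1 + m j / t := by
      have := div_nonneg (hm j) ht.le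
      linarith
    have h1 : ∑ i ∈ range (j + 1), m i * ∏ l ∈ Ico i (j + 1), (1 + m l / t)⁻¹
        = (∑ i ∈ range j, m i * ∏ l ∈ Ico i j, (1 + m l / t)⁻¹ + m j) * (1 + m j / t)⁻¹ := by
      rw [sum_range_succ, add_mul, sum_mul]
      congr 1
      · refine sum_congr rfl fun i hi => ?_
        rw [prod_Ico_succ_top (by have := mem_range.mp hi; omega)]
        ring
      · rw [prod_Ico_succ_top le_rfl, Ico_self, prod_empty, one_mul]
    rw [h1, mul_inv_le_iff₀ hpos]
    have : t * (1 + m j / t) = t + m j := by field_simp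
    rw [this]
    linarith

/-- scaling lemma: weights for one upper triangular block. -/
lemma block_weight (n : ℕ) (b : ℕ → ℕ → ℂ) (c η D : ℝ) (hη : 0 < η)
    (hdiag : ∀ p < n, (b p p).re ≤ c)
    (hdep : ∑ p ∈ range n, ∑ q ∈ Ico (p + 1) n, ‖b p q‖ ^ 2 ≤ D) :
    ∃ W : ℕ → ℝ, (∀ p, Real.exp (-(D / η ^ 2)) ≤ W p) ∧ (∀ p, W p ≤ 1) ∧
      ∀ x : ℕ → ℂ, (∑ p ∈ range n, (W p : ℂ) * (starRingEnd ℂ (x p) *
        ∑ q ∈ Ico p n, b p q * x q)).re ≤ (c + η) * ∑ p ∈ range n, W p * ‖x p‖ ^ 2 := by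
  classical
  set m : ℕ → ℝ := fun p => if p < n then ∑ q ∈ Ico (p + 1) n, ‖b p q‖ ^ 2 else 0 with hmdef
  have hm : ∀ p, 0 ≤ m p := by
    intro p
    simp only [hmdef]
    split_ifs
    · positivity
    · exact le_rfl
  set t : ℝ := η ^ 2 with ht
  have htpos : 0 < t := by positivity
  set a : ℕ → ℝ := fun l => (1 + m l / t)⁻¹ with ha
  have hapos : ∀ l, 0 < a l := by
    intro l
    have := div_nonneg (hm l) htpos.le
    simp only [ha]
    positivity
  have hale : ∀ l, a l ≤ 1 := by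
    intro l
    have := div_nonneg (hm l) htpos.le
    simp only [ha]
    exact inv_le_one_of_one_le₀ (by linarith)
  have haexp : ∀ l, Real.exp (-(m l / t)) ≤ a l := by
    intro l
    simp only [ha]
    rw [Real.exp_neg]
    have h0 := div_nonneg (hm l) htpos.le
    exact inv_anti₀ (by linarith) (by linarith [Real.add_one_le_exp (m l / t)])
  set W : ℕ → ℝ := fun p => ∏ l ∈ Ico p n, a l with hW
  have hWpos : ∀ p, 0 < W p := fun p => prod_pos fun l _ => hapos l
  have hWsplit : ∀ p q, p ≤ q → q ≤ n → W p = (∏ l ∈ Ico p q, a l) * W q := by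
    intro p q hpq hq
    simp only [hW]
    rw [prod_Ico_consecutive _ hpq hq]
  refine ⟨W, ?_, ?_, ?_⟩
  · intro p
    have h1 : Real.exp (-(D / t)) ≤ ∏ l ∈ Ico p n, Real.exp (-(m l / t)) := by
      rw [← Real.exp_sum]
      apply Real.exp_le_exp.mpr
      rw [sum_neg_distrib, neg_le_neg_iff, ← sum_div]
      apply div_le_div_of_nonneg_right _ htpos.le
      calc ∑ l ∈ Ico p n, m l ≤ ∑ l ∈ range n, m l := by
            apply sum_le_sum_of_subset_of_nonneg
            · intro l hl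
              exact mem_range.mpr (mem_Ico.mp hl).2
            · intro l _ _
              exact hm l
        _ = ∑ p ∈ range n, ∑ q ∈ Ico (p + 1) n, ‖b p q‖ ^ 2 := by
            refine sum_congr rfl fun l hl => ?_
            simp [hmdef, mem_range.mp hl]
        _ ≤ D := hdep
    refine h1.trans ?_
    exact prod_le_prod (fun l _ => (Real.exp_pos _).le) (fun l _ => haexp l)
  · intro p
    exact prod_le_one (fun l _ => (hapos l).le) (fun l _ => hale l)
  · intro x
    have hsplit : ∀ p ∈ range n, (W p : ℂ) * (starRingEnd ℂ (x p) * ∑ q ∈ Ico p n, b p q * x q)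
        = (W p : ℂ) * (starRingEnd ℂ (x p) * (b p p * x p))
          + (W p : ℂ) * (starRingEnd ℂ (x p) * ∑ q ∈ Ico (p + 1) n, b p q * x q) := by
      intro p hp
      rw [sum_eq_sum_Ico_succ_bot (mem_range.mp hp)]
      ring
    rw [sum_congr rfl hsplit, sum_add_distrib, add_re, add_mul]
    apply add_le_add
    · rw [re_sum, mul_sum]
      apply sum_le_sum
      intro p hp
      have h2 : (W p : ℂ) * (starRingEnd ℂ (x p) * (b p p * x p))
          = ((W p * ‖x p‖ ^ 2 : ℝ) : ℂ) * b p p := by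
        have h3 : starRingEnd ℂ (x p) * x p = ((‖x p‖ ^ 2 : ℝ) : ℂ) := by
          rw [mul_comm, mul_conj, normSq_eq_norm_sq]
        push_cast at h3 ⊢
        rw [← h3]
        ring
      rw [h2, re_ofReal_mul, mul_comm c]
      apply mul_le_mul_of_nonneg_left (hdiag p (mem_range.mp hp))
      have := hWpos p
      positivity
    · -- the strictly upper part
      set X : ℕ → ℝ := fun p => Real.sqrt (W p) * ‖x p‖ with hX
      have hXsq : ∀ p, X p ^ 2 = W p * ‖x p‖ ^ 2 := by
        intro p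
        simp only [hX]
        rw [mul_pow, Real.sq_sqrt (hWpos p).le]
      have hXnn : ∀ p, 0 ≤ X p := fun p => by positivity
      set N2 : ℝ := ∑ p ∈ range n, W p * ‖x p‖ ^ 2 with hN2
      have hN2nn : 0 ≤ N2 := by
        apply sum_nonneg
        intro p _
        have := hWpos p
        positivity
      set Y : ℕ → ℝ := fun p => Real.sqrt (m p * ∑ q ∈ Ico (p + 1) n, (W p / W q) * X q ^ 2) with hY
      have hterm : ∀ p ∈ range n,
          ((W p : ℂ) * (starRingEnd ℂ (x p) * ∑ q ∈ Ico (p + 1) n, b p q * x q)).re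
            ≤ X p * Y p := by
        intro p hp
        have hp' := mem_range.mp hp
        refine (re_le_norm _).trans ?_
        rw [norm_mul, norm_mul, norm_real, Real.norm_of_nonneg (hWpos p).le, RCLike.norm_conj]
        have h1 : ‖∑ q ∈ Ico (p + 1) n, b p q * x q‖
            ≤ ∑ q ∈ Ico (p + 1) n, ‖b p q‖ * ‖x q‖ := by
          refine (norm_sum_le _ _).trans ?_
          apply sum_le_sum
          intro q _
          rw [norm_mul]
        have h2 : Real.sqrt (W p) * ∑ q ∈ Ico (p + 1) n, ‖b p q‖ * ‖x q‖ ≤ Y p := by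
          simp only [hY]
          apply Real.le_sqrt_of_sq_le
          rw [mul_pow, Real.sq_sqrt (hWpos p).le]
          have h3 := sum_mul_sq_le_sq_mul_sq (Ico (p + 1) n) (fun q => ‖b p q‖) (fun q => ‖x q‖)
          have h4 : m p = ∑ q ∈ Ico (p + 1) n, ‖b p q‖ ^ 2 := by simp [hmdef, hp']
          have h5 : ∑ q ∈ Ico (p + 1) n, (W p / W q) * X q ^ 2
              = W p * ∑ q ∈ Ico (p + 1) n, ‖x q‖ ^ 2 := by
            rw [mul_sum]
            refine sum_congr rfl fun q _ => ?_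
            rw [hXsq]
            have := (hWpos q).ne'
            field_simp
          rw [h5, h4]
          calc W p * (∑ q ∈ Ico (p + 1) n, ‖b p q‖ * ‖x q‖) ^ 2
              ≤ W p * ((∑ q ∈ Ico (p + 1) n, ‖b p q‖ ^ 2) * ∑ q ∈ Ico (p + 1) n, ‖x q‖ ^ 2) :=
                mul_le_mul_of_nonneg_left h3 (hWpos p).le
            _ = _ := by ring
        calc W p * (‖x p‖ * ‖∑ q ∈ Ico (p + 1) n, b p q * x q‖)
            ≤ W p * (‖x p‖ * ∑ q ∈ Ico (p + 1) n, ‖b p q‖ * ‖x q‖) := by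
              have := hWpos p
              gcongr
          _ = X p * (Real.sqrt (W p) * ∑ q ∈ Ico (p + 1) n, ‖b p q‖ * ‖x q‖) := by
              simp only [hX]
              have : W p = Real.sqrt (W p) * Real.sqrt (W p) :=
                (Real.mul_self_sqrt (hWpos p).le).symm
              nth_rewrite 1 [this]
              ring
          _ ≤ X p * Y p := mul_le_mul_of_nonneg_left h2 (hXnn p)
      rw [re_sum]
      refine (sum_le_sum hterm).trans ?_
      have hY2 : ∑ p ∈ range n, Y p ^ 2 ≤ t * N2 := by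
        have h1 : ∀ p ∈ range n, Y p ^ 2 = ∑ q ∈ range n, if p < q then
            m p * (∏ l ∈ Ico p q, a l) * X q ^ 2 else 0 := by
          intro p hp
          have hnn : 0 ≤ m p * ∑ q ∈ Ico (p + 1) n, (W p / W q) * X q ^ 2 := by
            apply mul_nonneg (hm p)
            apply sum_nonneg
            intro q _
            have := hWpos q
            have := hWpos p
            positivity
          simp only [hY]
          rw [Real.sq_sqrt hnn, mul_sum, ← sum_filter]
          have h2 : (range n).filter (fun q => p < q) = Ico (p + 1) n := by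
            ext q
            simp only [mem_filter, mem_range, mem_Ico]
            omega
          rw [h2]
          refine sum_congr rfl fun q hq => ?_
          have hq' := mem_Ico.mp hq
          rw [hWsplit p q (by omega) (by omega)]
          have := (hWpos q).ne'
          field_simp
        rw [sum_congr rfl h1, sum_comm]
        calc ∑ q ∈ range n, ∑ p ∈ range n, (if p < q then
              m p * (∏ l ∈ Ico p q, a l) * X q ^ 2 else 0)
            = ∑ q ∈ range n, (∑ p ∈ range q, m p * (∏ l ∈ Ico p q, a l)) * X q ^ 2 := by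
              refine sum_congr rfl fun q hq => ?_
              rw [← sum_filter, sum_mul]
              have h2 : (range n).filter (fun p => p < q) = range q := by
                ext p
                have := mem_range.mp hq
                simp only [mem_filter, mem_range]
                omega
              rw [h2]
          _ ≤ ∑ q ∈ range n, t * X q ^ 2 := by
              apply sum_le_sum
              intro q _
              apply mul_le_mul_of_nonneg_right _ (sq_nonneg _)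
              exact tele m hm htpos q
          _ = t * N2 := by
              rw [hN2, mul_sum]
              exact sum_congr rfl fun q _ => by rw [hXsq]
      have hX2 : ∑ p ∈ range n, X p ^ 2 = N2 := by
        rw [hN2]
        exact sum_congr rfl fun q _ => hXsq q
      have h6 := sum_mul_sq_le_sq_mul_sq (range n) X Y
      have h7 : (∑ p ∈ range n, X p * Y p) ^ 2 ≤ (η * N2) ^ 2 := by
        calc (∑ p ∈ range n, X p * Y p) ^ 2 ≤ (∑ p ∈ range n, X p ^ 2) * ∑ p ∈ range n, Y p ^ 2 := h6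
          _ ≤ N2 * (t * N2) := by
              rw [hX2]
              exact mul_le_mul_of_nonneg_left hY2 hN2nn
          _ = (η * N2) ^ 2 := by
              rw [ht]
              ring
      exact abs_le_of_sq_le_sq' h7 (by positivity) |>.2

/-- Sylvester estimate. -/
lemma sylvester {X Y E₁ E₂ : Type*} [AddCommGroup X] [Module ℂ X] [AddCommGroup Y] [Module ℂ Y]
    [NormedAddCommGroup E₁] [InnerProductSpace ℂ E₁]
    [NormedAddCommGroup E₂] [InnerProductSpace ℂ E₂]
    (S₁ : X →ₗ[ℂ] E₁) (S₂ : Y →ₗ[ℂ] E₂) (B : X →ₗ[ℂ] X) (C : Y →ₗ[ℂ] Y)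
    (β : X → Y → ℂ)
    (hl : ∀ x x' y (s : ℝ), β (x + (s : ℂ) • x') y = β x y + s * β x' y)
    (hr : ∀ x y y' (s : ℝ), β x (y + (s : ℂ) • y') = β x y + s * β x y')
    (K₀ R₁ R₂ a₁ a₂ g : ℝ) (hK₀ : ∀ x y, ‖β x y‖ ≤ K₀ * (‖S₁ x‖ * ‖S₂ y‖))
    (hB : ∀ x, ‖S₁ (B x)‖ ≤ R₁ * ‖S₁ x‖) (hC : ∀ y, ‖S₂ (C y)‖ ≤ R₂ * ‖S₂ y‖)
    (ha₁ : ∀ x, (inner ℂ (S₁ x) (S₁ (B x))).re ≤ a₁ * ‖S₁ x‖ ^ 2)
    (ha₂ : ∀ y, (inner ℂ (S₂ y) (S₂ (C y))).re ≤ a₂ * ‖S₂ y‖ ^ 2)
    (hg : ∀ x y, ‖β (B x) y + β x (C y)‖ ≤ g * (‖S₁ x‖ * ‖S₂ y‖)) (hg0 : 0 ≤ g)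
    (hneg : a₁ + a₂ < 0) :
    ∀ x y, ‖β x y‖ ≤ g / (-(a₁ + a₂)) * (‖S₁ x‖ * ‖S₂ y‖) := by
  set α : ℝ := -(a₁ + a₂) with hα
  have hαpos : 0 < α := by linarith
  -- enlarge the constants
  set R : ℝ := |R₁| + |R₂| + 1 with hR
  have hR1 : 1 ≤ R := by
    have := abs_nonneg R₁
    have := abs_nonneg R₂
    linarith
  have hB' : ∀ x, ‖S₁ (B x)‖ ≤ R * ‖S₁ x‖ := fun x => (hB x).trans
    (mul_le_mul_of_nonneg_right (by
      have := abs_nonneg R₂
      have := le_abs_self R₁
      linarith) (norm_nonneg _))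
  have hC' : ∀ y, ‖S₂ (C y)‖ ≤ R * ‖S₂ y‖ := fun y => (hC y).trans
    (mul_le_mul_of_nonneg_right (by
      have := abs_nonneg R₁
      have := le_abs_self R₂
      linarith) (norm_nonneg _))
  set KS : Set ℝ := {K | 0 ≤ K ∧ ∀ x y, ‖β x y‖ ≤ K * (‖S₁ x‖ * ‖S₂ y‖)} with hKS
  have hne : KS.Nonempty := ⟨|K₀|, abs_nonneg _, fun x y => (hK₀ x y).trans
    (mul_le_mul_of_nonneg_right (le_abs_self _) (by positivity))⟩
  have hbdd : BddBelow KS := ⟨0, fun K hK => hK.1⟩
  set K : ℝ := sInf KS with hK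
  have hK0 : 0 ≤ K := le_csInf hne fun K' hK' => hK'.1
  have hKmem : ∀ x y, ‖β x y‖ ≤ K * (‖S₁ x‖ * ‖S₂ y‖) := by
    intro x y
    rcases (mul_nonneg (norm_nonneg (S₁ x)) (norm_nonneg (S₂ y))).eq_or_lt with h0 | h0
    · obtain ⟨K', hK'⟩ := hne
      have := hK'.2 x y
      rw [← h0] at this ⊢
      simpa using this
    · rw [← div_le_iff₀ h0]
      apply le_csInf hne
      intro K' hK'
      rw [div_le_iff₀ h0]
      exact hK'.2 x y
  -- one step
  set Q : ℝ := |a₁| + |a₂| + 1 with hQ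
  have hQ1 : 1 ≤ Q := by
    have := abs_nonneg a₁
    have := abs_nonneg a₂
    linarith
  set Mc : ℝ := 2 * (R ^ 2 / 2) + Q * Q + R ^ 2 + (R ^ 2 / 2) ^ 2 with hMc
  have hMc0 : 0 ≤ Mc := by positivity
  have hstep : ∀ s : ℝ, 0 < s → s ≤ 1 / (2 * Q) → K * α ≤ g + K * Mc * s := by
    intro s hs hs1
    have hs2 : s ≤ 1 := by
      refine hs1.trans ?_
      rw [div_le_one (by positivity)]
      linarith
    have hsQ : s * Q ≤ 1 / 2 := by
      calc s * Q ≤ 1 / (2 * Q) * Q := mul_le_mul_of_nonneg_right hs1 (by linarith)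
        _ = 1 / 2 := by field_simp
    have hu : ∀ a : ℝ, |a| ≤ Q → 0 ≤ 1 + s * a + s ^ 2 * (R ^ 2 / 2) := by
      intro a ha
      have h1 : -(s * Q) ≤ s * a := by
        have := neg_abs_le a
        nlinarith
      have : 0 ≤ s ^ 2 * (R ^ 2 / 2) := by positivity
      linarith
    have ha1Q : |a₁| ≤ Q := by
      have := abs_nonneg a₂
      linarith
    have ha2Q : |a₂| ≤ Q := by
      have := abs_nonneg a₁
      linarith
    have hS1 : ∀ x, ‖S₁ (x + (s : ℂ) • B x)‖ ≤ (1 + s * a₁ + s ^ 2 * (R ^ 2 / 2)) * ‖S₁ x‖ := by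
      intro x
      have hnn := hu a₁ ha1Q
      apply le_of_sq_le_sq _ (mul_nonneg hnn (norm_nonneg _))
      rw [map_add, map_smul, norm_add_sq (𝕜 := ℂ), inner_smul_right, norm_smul, norm_real,
        Real.norm_of_nonneg hs.le]
      have h1 : RCLike.re ((s : ℂ) * inner ℂ (S₁ x) (S₁ (B x)))
          = s * (inner ℂ (S₁ x) (S₁ (B x))).re := by
        rw [RCLike.re_to_complex, re_ofReal_mul]
      rw [h1]
      have h2 := ha₁ x
      have h3 := hB' x
      have h4 : (s * ‖S₁ (B x)‖) ^ 2 ≤ (s * (R * ‖S₁ x‖)) ^ 2 := by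
        have := norm_nonneg (S₁ (B x))
        gcongr
      have h5 : s * (inner ℂ (S₁ x) (S₁ (B x))).re ≤ s * (a₁ * ‖S₁ x‖ ^ 2) :=
        mul_le_mul_of_nonneg_left h2 hs.le
      have h6 : 0 ≤ (s * a₁ + s ^ 2 * (R ^ 2 / 2)) ^ 2 * ‖S₁ x‖ ^ 2 := by positivity
      nlinarith
    have hS2 : ∀ y, ‖S₂ (y + (s : ℂ) • C y)‖ ≤ (1 + s * a₂ + s ^ 2 * (R ^ 2 / 2)) * ‖S₂ y‖ := by
      intro y
      have hnn := hu a₂ ha2Q
      apply le_of_sq_le_sq _ (mul_nonneg hnn (norm_nonneg _))
      rw [map_add, map_smul, norm_add_sq (𝕜 := ℂ), inner_smul_right, norm_smul, norm_real,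
        Real.norm_of_nonneg hs.le]
      have h1 : RCLike.re ((s : ℂ) * inner ℂ (S₂ y) (S₂ (C y)))
          = s * (inner ℂ (S₂ y) (S₂ (C y))).re := by
        rw [RCLike.re_to_complex, re_ofReal_mul]
      rw [h1]
      have h2 := ha₂ y
      have h3 := hC' y
      have h4 : (s * ‖S₂ (C y)‖) ^ 2 ≤ (s * (R * ‖S₂ y‖)) ^ 2 := by
        have := norm_nonneg (S₂ (C y))
        gcongr
      have h5 : s * (inner ℂ (S₂ y) (S₂ (C y))).re ≤ s * (a₂ * ‖S₂ y‖ ^ 2) :=
        mul_le_mul_of_nonneg_left h2 hs.le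
      have h6 : 0 ≤ (s * a₂ + s ^ 2 * (R ^ 2 / 2)) ^ 2 * ‖S₂ y‖ ^ 2 := by positivity
      nlinarith
    set K' : ℝ := K * ((1 + s * a₁ + s ^ 2 * (R ^ 2 / 2)) * (1 + s * a₂ + s ^ 2 * (R ^ 2 / 2)))
      + s * g + s ^ 2 * (K * R ^ 2) with hK'
    have hK'mem : K' ∈ KS := by
      have hu1 := hu a₁ ha1Q
      have hu2 := hu a₂ ha2Q
      refine ⟨by positivity, fun x y => ?_⟩
      have hexp : β x y = β (x + (s : ℂ) • B x) (y + (s : ℂ) • C y)
          - s * (β (B x) y + β x (C y)) - (s : ℂ) ^ 2 * β (B x) (C y) := by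
        rw [hl, hr, hr]
        ring
      have h1 : ‖β (x + (s : ℂ) • B x) (y + (s : ℂ) • C y)‖
          ≤ K * (((1 + s * a₁ + s ^ 2 * (R ^ 2 / 2)) * ‖S₁ x‖)
            * ((1 + s * a₂ + s ^ 2 * (R ^ 2 / 2)) * ‖S₂ y‖)) := by
        refine (hKmem _ _).trans ?_
        have := hS1 x
        have := hS2 y
        gcongr
      have h2 : ‖(s : ℂ) * (β (B x) y + β x (C y))‖ ≤ s * (g * (‖S₁ x‖ * ‖S₂ y‖)) := by
        rw [norm_mul, norm_real, Real.norm_of_nonneg hs.le]
        exact mul_le_mul_of_nonneg_left (hg x y) hs.le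
      have h3 : ‖(s : ℂ) ^ 2 * β (B x) (C y)‖ ≤ s ^ 2 * (K * ((R * ‖S₁ x‖) * (R * ‖S₂ y‖))) := by
        rw [norm_mul, norm_pow, norm_real, Real.norm_of_nonneg hs.le]
        apply mul_le_mul_of_nonneg_left _ (sq_nonneg s)
        refine (hKmem _ _).trans ?_
        have := hB' x
        have := hC' y
        gcongr
      calc ‖β x y‖ = ‖β (x + (s : ℂ) • B x) (y + (s : ℂ) • C y)
          - s * (β (B x) y + β x (C y)) - (s : ℂ) ^ 2 * β (B x) (C y)‖ := by rw [← hexp]
        _ ≤ ‖β (x + (s : ℂ) • B x) (y + (s : ℂ) • C y)‖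
          + ‖(s : ℂ) * (β (B x) y + β x (C y))‖ + ‖(s : ℂ) ^ 2 * β (B x) (C y)‖ :=
            (norm_sub_le _ _).trans (add_le_add_left (norm_sub_le _ _) _)
        _ ≤ _ := by
            rw [hK']
            linarith
    have hle : K ≤ K' := csInf_le hbdd hK'mem
    -- expand
    have hprod : (1 + s * a₁ + s ^ 2 * (R ^ 2 / 2)) * (1 + s * a₂ + s ^ 2 * (R ^ 2 / 2))
        ≤ 1 - s * α + s ^ 2 * (2 * (R ^ 2 / 2) + Q * Q + (R ^ 2 / 2) ^ 2) := by
      have e1 : a₁ * a₂ ≤ Q * Q := by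
        calc a₁ * a₂ ≤ |a₁ * a₂| := le_abs_self _
          _ = |a₁| * |a₂| := abs_mul _ _
          _ ≤ Q * Q := mul_le_mul ha1Q ha2Q (abs_nonneg _) (by linarith)
      have e2 : s ^ 4 * (R ^ 2 / 2) ^ 2 ≤ s ^ 2 * (R ^ 2 / 2) ^ 2 := by
        apply mul_le_mul_of_nonneg_right _ (sq_nonneg _)
        calc s ^ 4 = s ^ 2 * s ^ 2 := by ring
          _ ≤ s ^ 2 * 1 := mul_le_mul_of_nonneg_left (pow_le_one₀ hs.le hs2) (sq_nonneg _)
          _ = s ^ 2 := mul_one _
      have e3 : s ^ 3 * (R ^ 2 / 2) * (a₁ + a₂) ≤ 0 :=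
        mul_nonpos_of_nonneg_of_nonpos (by positivity) hneg.le
      have e4 : s ^ 2 * (a₁ * a₂) ≤ s ^ 2 * (Q * Q) := mul_le_mul_of_nonneg_left e1 (sq_nonneg _)
      rw [hα]
      nlinarith
    have h8 : K' ≤ K * (1 - s * α + s ^ 2 * (2 * (R ^ 2 / 2) + Q * Q + (R ^ 2 / 2) ^ 2))
        + s * g + s ^ 2 * (K * R ^ 2) := by
      rw [hK']
      have := mul_le_mul_of_nonneg_left hprod hK0
      linarith
    have h9 : s * (K * α) ≤ s * (g + K * Mc * s) := by
      rw [hMc]
      nlinarith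
    exact le_of_mul_le_mul_left h9 hs
  have hfin : K * α ≤ g := by
    by_contra hcon
    push_neg at hcon
    set d : ℝ := K * α - g with hd
    have hdpos : 0 < d := by linarith
    set s : ℝ := min (1 / (2 * Q)) (d / (2 * (K * Mc + 1))) with hs
    have hspos : 0 < s := lt_min (by positivity) (by positivity)
    have h1 := hstep s hspos (min_le_left _ _)
    have h2 : K * Mc * s ≤ d / 2 := by
      have h3 : s ≤ d / (2 * (K * Mc + 1)) := min_le_right _ _
      have h4 : 0 ≤ K * Mc := by positivity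
      calc K * Mc * s ≤ K * Mc * (d / (2 * (K * Mc + 1))) := mul_le_mul_of_nonneg_left h3 h4
        _ ≤ d / 2 := by
          rw [mul_div_assoc', div_le_div_iff₀ (by positivity) (by positivity)]
          nlinarith
    linarith
  have hKle : K ≤ g / α := by
    rw [le_div_iff₀ hαpos]
    exact hfin
  intro x y
  exact (hKmem x y).trans (mul_le_mul_of_nonneg_right hKle (by positivity))

end ApproxInv
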